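import Pool.Agent.W221.NS.Stm3

/-!
Fourth stage (helper221): solutions with a force.
-/

open MeasureTheory Set Metric Filter Topology
open scoped ContDiff ENNReal

namespace W221.NS

open H459R3.NS

/-! ### Definitions -/

/-- The residual of the Navier-Stokes equations with viscosity one, i.e. the force. -/
noncomputable def res (u : ℝ → V → V) (p : ℝ → V → ℝ) (t : ℝ) (x : V) : V := fun i =>
  deriv (fun s => u s x i) t + adv (u t) (fun y => u t y i) x - lap (fun y => u t y i) x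
    + pd i (p t) x

/-- `f` and its derivatives of order at most three are bounded by `F` on `O`. -/
def Bd3 (F : ℝ) (O : Set V) (f : V → V) : Prop := ∀ x ∈ O, ∀ i,
  |f x i| ≤ F ∧ (∀ j, |pd j (fun y => f y i) x| ≤ F) ∧
  (∀ j k, |pd j (pd k (fun y => f y i)) x| ≤ F) ∧
  ∀ j k l, |pd j (pd k (pd l (fun y => f y i))) x| ≤ F

/-- A smooth field on `(-1, 0) × ℝ³` which solves the Navier-Stokes equations (viscosity one) with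
a bounded force on the ball of radius `8` and has weighted mean zero. -/
structure Loc3 (F : ℝ) (v : ℝ → V → V) (q : ℝ → V → ℝ) : Prop where
  smooth_v : ContDiffOn ℝ ∞ (fun z : ℝ × V => v z.1 z.2) (Ioo (-1) 0 ×ˢ univ)
  smooth_q : ContDiffOn ℝ ∞ (fun z : ℝ × V => q z.1 z.2) (Ioo (-1) 0 ×ˢ univ)
  divfree : ∀ t ∈ Ioo (-1 : ℝ) 0, ∀ x ∈ ball (0 : V) 8, dv (v t) x = 0
  force : ∀ t ∈ Ioo (-1 : ℝ) 0, Bd3 F (ball 0 8) (res v q t)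
  mean : ∀ t ∈ Ioo (-1 : ℝ) 0, ∀ i, ∫ z, th z * v t z i = 0

/-- A smooth field which solves the equations with a bounded force on the open set `O`. -/
structure LSol3 (T κ E F : ℝ) (O : Set V) (u : ℝ → V → V) (p : ℝ → V → ℝ) : Prop where
  openO : IsOpen O
  smooth_u : ContDiffOn ℝ ∞ (fun z : ℝ × V => u z.1 z.2) (Ioo 0 T ×ˢ univ)
  smooth_p : ContDiffOn ℝ ∞ (fun z : ℝ × V => p z.1 z.2) (Ioo 0 T ×ˢ univ)
  divfree : ∀ t ∈ Ioo 0 T, ∀ x ∈ O, dv (u t) x = 0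
  force : ∀ t ∈ Ioo 0 T, Bd3 F O (res u p t)
  en_int : ∀ t ∈ Ioo 0 T, Integrable (nsq (u t))
  en : ∀ t ∈ Ioo 0 T, ∫ x, nsq (u t) x ≤ E ^ 2
  dv_int : ∀ t ∈ Ioo 0 T, Integrable (fun x => dv (u t) x ^ 2)
  dvb : ∀ t ∈ Ioo 0 T, ∫ x, dv (u t) x ^ 2 ≤ κ ^ 2

/-- `(u, p)` is a smooth solution of the Navier-Stokes equations with viscosity `ν` and force `f`
on `(0, T) × Ω`, with `∫ |u|² ≤ E²` over `Ω` at all times; `f` and its spatial derivatives of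
order at most three are bounded by `F`. -/
structure OSolF (ν T E F : ℝ) (Ω : Set V) (u : ℝ → V → V) (p : ℝ → V → ℝ) (f : ℝ → V → V) :
    Prop where
  openO : IsOpen Ω
  smooth_u : ContDiffOn ℝ ∞ (fun z : ℝ × V => u z.1 z.2) (Ioo 0 T ×ˢ Ω)
  smooth_p : ContDiffOn ℝ ∞ (fun z : ℝ × V => p z.1 z.2) (Ioo 0 T ×ˢ Ω)
  divfree : ∀ t ∈ Ioo 0 T, ∀ x ∈ Ω, ∑ i, pd i (fun y => u t y i) x = 0
  momentum : ∀ t ∈ Ioo 0 T, ∀ x ∈ Ω, ∀ i,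
    deriv (fun s => u s x i) t + ∑ j, u t x j * pd j (fun y => u t y i) x
      = ν * ∑ j, pd j (pd j (fun y => u t y i)) x - pd i (p t) x + f t x i
  force : ∀ t ∈ Ioo 0 T, Bd3 F Ω (f t)
  en_int : ∀ t ∈ Ioo 0 T, IntegrableOn (nsq (u t)) Ω
  en : ∀ t ∈ Ioo 0 T, ∫ x in Ω, nsq (u t) x ≤ E ^ 2

/-- `(u, p)` is a smooth `1`-periodic solution of the Navier-Stokes equations with viscosity `ν`
and force `f` on the time interval `[0, T)`; `f` and its spatial derivatives of order at most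
three are bounded by `F`. -/
structure IsSolF (ν T F : ℝ) (u : ℝ → V → V) (p : ℝ → V → ℝ) (f : ℝ → V → V) : Prop where
  smooth_u : ContDiffOn ℝ ∞ (fun z : ℝ × V => u z.1 z.2) (Ico 0 T ×ˢ univ)
  smooth_p : ContDiffOn ℝ ∞ (fun z : ℝ × V => p z.1 z.2) (Ico 0 T ×ˢ univ)
  per_u : ∀ t ∈ Ico 0 T, Per (u t)
  per_p : ∀ t ∈ Ico 0 T, Per (p t)
  divfree : ∀ t ∈ Ico 0 T, ∀ x, ∑ i, pd i (fun y => u t y i) x = 0
  momentum : ∀ t ∈ Ioo 0 T, ∀ x i,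
    deriv (fun s => u s x i) t + ∑ j, u t x j * pd j (fun y => u t y i) x
      = ν * ∑ j, pd j (pd j (fun y => u t y i)) x - pd i (p t) x + f t x i
  force : ∀ t ∈ Ioo 0 T, Bd3 F univ (f t)

/-! ### Statements -/

/-- The Sobolev inequality for derivatives of order three. -/
def S_SUP : Prop := ∃ C : ℝ, 0 < C ∧ ∀ (w : V → ℝ) (A : ℝ), 0 ≤ A → ContDiff ℝ ∞ w →
  ∫ x in ball (0 : V) 8, w x ^ 2 ≤ A ^ 2 →
  (∀ i, ∫ x in ball (0 : V) 8, pd i w x ^ 2 ≤ A ^ 2) →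
  (∀ i j, ∫ x in ball (0 : V) 8, pd i (pd j w) x ^ 2 ≤ A ^ 2) →
  (∀ i j k, ∫ x in ball (0 : V) 8, pd i (pd j (pd k w)) x ^ 2 ≤ A ^ 2) →
    ∀ x ∈ ball (0 : V) 1, |w x| ≤ C * A

/-- The operator applied to the force. -/
def S_SUPT : Prop := ∀ (g : V → ℝ) (C : ℝ), IsGreen g C → ∃ C' : ℝ, 0 < C' ∧
  ∀ (F : ℝ) (f : V → V), 0 ≤ F → ContDiff ℝ ∞ f → Bd3 F (ball 0 8) f →
    ∀ x ∈ ball (0 : V) 1, ∀ i, |TT g f x i| ≤ C' * F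

/-- The operator is linear. -/
def S_TLIN : Prop := ∀ (g : V → ℝ) (C : ℝ), IsGreen g C → ∀ f h : V → V, ContDiff ℝ ∞ f →
  ContDiff ℝ ∞ h → ∀ x i, TT g (fun y i => f y i - h y i) x i = TT g f x i - TT g h x i

/-- From a solution to the hypothesis of the local regularity theorem. -/
def S_HYP3 : Prop := ∀ (g : V → ℝ) (C : ℝ), IsGreen g C → ∃ C' : ℝ, 0 < C' ∧
  ∀ (F : ℝ) (v : ℝ → V → V) (q : ℝ → V → ℝ), 0 ≤ F → Loc3 F v q → ∀ ε : ℝ,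
    IntegrableOn (fun t => B2 0 8 (v t)) (Ioo (-1) 0) →
    C' * (F + ∫ t in Ioo (-1) 0, B2 0 8 (v t)) ≤ ε →
      Hyp2 v (fun t => TT g (v t)) (fun t => C' * (F + B2 0 8 (v t))) ε

/-- The local regularity theorem. -/
def S_LOCAL3 : Prop := ∃ ε C : ℝ, 0 < ε ∧ 0 < C ∧ ∀ (F : ℝ) (v : ℝ → V → V) (q : ℝ → V → ℝ),
  0 ≤ F → Loc3 F v q → IntegrableOn (fun t => B2 0 8 (v t)) (Ioo (-1) 0) →
  F + ∫ t in Ioo (-1) 0, B2 0 8 (v t) ≤ ε → ∀ t ∈ Ioo (-1 / 16 : ℝ) 0,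
    ∀ z ∈ ball (0 : V) (1 / 4), ∀ i, |v t z i| ≤ C * (1 + √(A2 0 4 (v t)))

/-- The equations in the moving frame. -/
def S_FRAME3 : Prop := ∀ (T κ E F : ℝ) (O : Set V) (u : ℝ → V → V) (p : ℝ → V → ℝ), 0 ≤ F →
  LSol3 T κ E F O u p → ∀ r s : ℝ, 0 < r → r ≤ 1 → r ^ 2 < s → s < T → ∀ X : ℝ → V,
    ContDiffOn ℝ ∞ X (Ioo (s - r ^ 2) s) →
    (∀ t ∈ Ioo (s - r ^ 2) s, HasDerivAt X (mol r u t (X t)) t) →
    (∀ t ∈ Ioo (s - r ^ 2) s, ball (X t) (8 * r) ⊆ O) →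
      Loc3 (r ^ 3 * F) (frv r s X u) (frq r s X p)

/-- Tonelli along the flow. -/
def S_MARK3 : Prop := ∀ (T κ E F : ℝ) (O : Set V) (u : ℝ → V → V) (p : ℝ → V → ℝ),
  LSol3 T κ E F O u p → ∀ r s : ℝ, 0 < r → r ^ 2 < s → s < T → ∀ (X : ℝ → V → V) (c : ℝ≥0∞),
    ContinuousOn (fun z : ℝ × V => X z.1 z.2) (Icc (s - r ^ 2) s ×ˢ univ) →
    (∀ t ∈ Icc (s - r ^ 2) s, Measure.map (X t) volume ≤ c • volume) →
      ∫⁻ x, ∫⁻ t in Ioo (-1 : ℝ) 0, ∫⁻ y in ball (X (s + r ^ 2 * t) x) (8 * r) ∩ O,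
          ENNReal.ofReal (gsq (u (s + r ^ 2 * t)) y)
        ≤ c * ENNReal.ofReal (4096 * r) *
          ∫⁻ τ in Ioo (s - r ^ 2) s, ∫⁻ y in O, ENNReal.ofReal (gsq (u τ) y)

/-- The number of separated singular points. -/
def S_COUNT3 : Prop := ∃ C : ℝ, 0 < C ∧ ∀ (T κ E F : ℝ) (O : Set V) (u : ℝ → V → V)
  (p : ℝ → V → ℝ), 0 ≤ κ → 0 ≤ E → 0 ≤ F → LSol3 T κ E F O u p → ∀ r : ℝ, 0 < r → r ≤ 1 →
    2 * r ^ 2 < T → C * κ * √r ≤ 1 → C * F * r ^ 3 ≤ 1 → ∀ S : Finset V, (∀ x ∈ S, Sing T u x) →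
    (∀ x ∈ S, ball x (C * (r + E * √r)) ⊆ O) →
    (∀ x ∈ S, ∀ y ∈ S, x ≠ y → r / 4 ≤ ‖x - y‖) →
      ENNReal.ofReal (S.card * r) ≤ ENNReal.ofReal C *
        ∫⁻ τ in Ioo (T - 2 * r ^ 2) T, ∫⁻ y in O, ENNReal.ofReal (gsq (u τ) y)

/-- Separated singular points in a compact subset of a domain. -/
def S_OMEGA3 : Prop := ∃ C : ℝ, 0 < C ∧ ∀ (T E F : ℝ) (Ω : Set V) (u : ℝ → V → V)
  (p : ℝ → V → ℝ) (f : ℝ → V → V),
  0 < T → 0 ≤ E → 0 ≤ F → OSolF 1 T E F Ω u p f → ∀ K : Set V, IsCompact K → K ⊆ Ω →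
    ∃ r₀ : ℝ, 0 < r₀ ∧ ∀ r : ℝ, 0 < r → r < r₀ → ∀ S : Finset V, (∀ x ∈ S, x ∈ K ∧ Sing T u x) →
      (∀ x ∈ S, ∀ y ∈ S, x ≠ y → r ≤ ‖x - y‖) →
        ENNReal.ofReal (S.card * r) ≤ ENNReal.ofReal C *
          ∫⁻ τ in Ioo (T - 32 * r ^ 2) T, ∫⁻ y in Ω, ENNReal.ofReal (gsq (u τ) y)

/-- Separated singular points in the whole space. -/
def S_WHOLE3 : Prop := ∃ C : ℝ, 0 < C ∧ ∀ (T E F : ℝ) (u : ℝ → V → V) (p : ℝ → V → ℝ)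
  (f : ℝ → V → V), 0 < T → 0 ≤ E → 0 ≤ F → OSolF 1 T E F univ u p f → ∀ r : ℝ, 0 < r →
    C * r ≤ 1 → C * F * r ^ 3 ≤ 1 → 32 * r ^ 2 < T → ∀ S : Finset V,
    (∀ x ∈ S, Sing T u x) → (∀ x ∈ S, ∀ y ∈ S, x ≠ y → r ≤ ‖x - y‖) →
      ENNReal.ofReal (S.card * r) ≤ ENNReal.ofReal C *
        ∫⁻ τ in Ioo (T - 32 * r ^ 2) T, ∫⁻ y, ENNReal.ofReal (gsq (u τ) y)

/-- Scaling to viscosity one. -/
def S_OSC3 : Prop := ∀ (ν T E F : ℝ) (Ω : Set V) (u : ℝ → V → V) (p : ℝ → V → ℝ)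
  (f : ℝ → V → V), 0 < ν → OSolF ν T E F Ω u p f →
    OSolF 1 (ν * T) (E / ν) (F / ν ^ 2) Ω (fun t x => ν⁻¹ • u (t / ν) x)
      (fun t x => (ν ^ 2)⁻¹ * p (t / ν) x) (fun t x => (ν ^ 2)⁻¹ • f (t / ν) x)

/-- Energy and dissipation of periodic solutions. -/
def S_PEN3 : Prop := ∀ (ν T F : ℝ) (u : ℝ → V → V) (p : ℝ → V → ℝ) (f : ℝ → V → V),
  0 < ν → 0 < T → 0 ≤ F → IsSolF ν T F u p f →
    (∃ E : ℝ, 0 ≤ E ∧ ∀ t ∈ Ioo 0 T, energy (u t) ≤ E ^ 2) ∧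
      IntegrableOn (fun t => enstrophy (u t)) (Ioo 0 T)

/-- A periodic solution on a ball. -/
def S_PERO : Prop :=
  (∀ (ν T E F : ℝ) (u : ℝ → V → V) (p : ℝ → V → ℝ) (f : ℝ → V → V), 0 < T → 0 ≤ E →
    IsSolF ν T F u p f → (∀ t ∈ Ioo 0 T, energy (u t) ≤ E ^ 2) →
      OSolF ν T (15 * E) F (ball 0 3) u p f) ∧
  ∀ v : V → V, SPV v →
    ∫⁻ y in ball (0 : V) 3, ENNReal.ofReal (gsq v y) = ENNReal.ofReal (216 * enstrophy v)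

end W221.NS
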