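import Pool.Agent.W221.NS.Fin3
import Pool.Agent.W221.NS.Stm4

/-!
The final step with a force: all viscosities, Minkowski content, number of singular points.
-/

open MeasureTheory Set Metric Filter Topology
open scoped ContDiff ENNReal

namespace W221.NS

open H459R3.NS

theorem bd3_mono {F F' : ℝ} (h : F ≤ F') {O : Set V} {f : V → V} (hf : Bd3 F O f) : Bd3 F' O f :=
  fun x hx i => ⟨(hf x hx i).1.trans h, fun j => ((hf x hx i).2.1 j).trans h,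
    fun j k => ((hf x hx i).2.2.1 j k).trans h, fun j k l => ((hf x hx i).2.2.2 j k l).trans h⟩

theorem osolF_abs {ν T E F : ℝ} {Ω : Set V} {u : ℝ → V → V} {p : ℝ → V → ℝ} {f : ℝ → V → V}
    (h : OSolF ν T E F Ω u p f) : OSolF ν T |E| |F| Ω u p f :=
  { h with
    force := fun t ht => bd3_mono (le_abs_self F) (h.force t ht)
    en := fun t ht => by rw [sq_abs]; exact h.en t ht }

/-- Scaling of the dissipation. -/
theorem diss_scale {ν : ℝ} (hν : 0 < ν) (Ω : Set V) (u : ℝ → V → V) (T r : ℝ) :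
    ∫⁻ τ in Ioo (ν * T - 32 * r ^ 2) (ν * T),
        ∫⁻ y in Ω, ENNReal.ofReal (gsq (fun x => ν⁻¹ • u (τ / ν) x) y)
      = ENNReal.ofReal ν⁻¹ *
        ∫⁻ τ in Ioo (T - 32 * r ^ 2 / ν) T, ∫⁻ y in Ω, ENNReal.ofReal (gsq (u τ) y) := by
  have e1 : ∀ τ, ∫⁻ y in Ω, ENNReal.ofReal (gsq (fun x => ν⁻¹ • u (τ / ν) x) y)
      = ENNReal.ofReal (ν⁻¹ ^ 2) * ∫⁻ y in Ω, ENNReal.ofReal (gsq (u (τ / ν)) y) := by
    intro τ
    rw [← lintegral_const_mul' _ _ ENNReal.ofReal_ne_top]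
    refine lintegral_congr fun y => ?_
    rw [gsq_smul, ENNReal.ofReal_mul (by positivity)]
  simp only [e1]
  rw [lintegral_const_mul' _ _ ENNReal.ofReal_ne_top]
  have ea : ν * T - 32 * r ^ 2 = ν * (T - 32 * r ^ 2 / ν) := by field_simp
  rw [ea, lint_scale hν (fun τ => ∫⁻ y in Ω, ENNReal.ofReal (gsq (u τ) y)), ← mul_assoc,
    ← ENNReal.ofReal_mul (by positivity)]
  congr 2
  field_simp

/-- Whole space, all viscosities. -/
theorem whole_all3 (h1 : S_WHOLE3) (h2 : S_OSC3) : ∃ C : ℝ, 0 < C ∧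
    ∀ (ν T E F : ℝ) (u : ℝ → V → V) (p : ℝ → V → ℝ) (f : ℝ → V → V), 0 < ν → 0 < T → 0 ≤ E →
      0 ≤ F → OSolF ν T E F univ u p f → ∀ r : ℝ, 0 < r → C * r ≤ 1 → C * F * r ^ 3 ≤ ν ^ 2 →
      32 * r ^ 2 / ν < T → ∀ S : Finset V,
        (∀ x ∈ S, Sing T u x) → (∀ x ∈ S, ∀ y ∈ S, x ≠ y → r ≤ ‖x - y‖) →
          ENNReal.ofReal (S.card * r) ≤ ENNReal.ofReal (C / ν) *
            ∫⁻ τ in Ioo (T - 32 * r ^ 2 / ν) T, ∫⁻ y, ENNReal.ofReal (gsq (u τ) y) := by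
  obtain ⟨C, hC, H⟩ := h1
  refine ⟨C, hC, ?_⟩
  intro ν T E F u p f hν hT hE hF hu r hr hC1 hC2 hrT S hS hsep
  have key := H (ν * T) (E / ν) (F / ν ^ 2) _ _ _ (mul_pos hν hT) (div_nonneg hE hν.le)
    (by positivity) (h2 ν T E F univ u p f hν hu) r hr hC1 (by
      have : C * (F / ν ^ 2) * r ^ 3 = C * F * r ^ 3 / ν ^ 2 := by ring
      rw [this, div_le_one (by positivity)]
      exact hC2) (by rw [div_lt_iff₀ hν] at hrT; linarith) S
    (fun x hx => sing_scale hν (hS x hx)) hsep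
  have e := diss_scale hν univ u T r
  simp only [Measure.restrict_univ] at e
  rw [e, ← mul_assoc, ← ENNReal.ofReal_mul hC.le, ← div_eq_mul_inv] at key
  exact key

/-- Domains, all viscosities. -/
theorem omega_all3 (h1 : S_OMEGA3) (h2 : S_OSC3) : ∃ C : ℝ, 0 < C ∧
    ∀ (ν T E F : ℝ) (Ω : Set V) (u : ℝ → V → V) (p : ℝ → V → ℝ) (f : ℝ → V → V), 0 < ν → 0 < T →
      OSolF ν T E F Ω u p f → ∀ K : Set V, IsCompact K → K ⊆ Ω → ∃ r₀ : ℝ, 0 < r₀ ∧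
        ∀ r : ℝ, 0 < r → r < r₀ → ∀ S : Finset V,
        (∀ x ∈ S, x ∈ K ∧ Sing T u x) → (∀ x ∈ S, ∀ y ∈ S, x ≠ y → r ≤ ‖x - y‖) →
          ENNReal.ofReal (S.card * r) ≤ ENNReal.ofReal (C / ν) *
            ∫⁻ τ in Ioo (T - 32 * r ^ 2 / ν) T, ∫⁻ y in Ω, ENNReal.ofReal (gsq (u τ) y) := by
  obtain ⟨C, hC, H⟩ := h1
  refine ⟨C, hC, ?_⟩
  intro ν T E F Ω u p f hν hT hu K hK hKΩ
  obtain ⟨r₀, hr₀, H'⟩ := H (ν * T) (|E| / ν) (|F| / ν ^ 2) Ω _ _ _ (mul_pos hν hT)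
    (div_nonneg (abs_nonneg E) hν.le) (by positivity)
    (h2 ν T |E| |F| Ω u p f hν (osolF_abs hu)) K hK hKΩ
  refine ⟨r₀, hr₀, ?_⟩
  intro r hr hrr S hS hsep
  have key := H' r hr hrr S (fun x hx => ⟨(hS x hx).1, sing_scale hν (hS x hx).2⟩) hsep
  rw [diss_scale hν Ω u T r, ← mul_assoc, ← ENNReal.ofReal_mul hC.le, ← div_eq_mul_inv] at key
  exact key

/-- Passing to the number of singular points. -/
theorem number_aux {ν C M : ℝ} (hν : 0 < ν) (hC : 0 < C) (hM0 : 0 ≤ M) (T : ℝ) (Z : Set V)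
    (D : ℝ → ℝ≥0∞) {r₀ : ℝ} (hr₀ : 0 < r₀) (S : Finset V) (hS : ∀ x ∈ S, x ∈ Z)
    (H : ∀ r : ℝ, 0 < r → r < r₀ → ∀ S : Finset V, (∀ x ∈ S, x ∈ Z) →
      (∀ x ∈ S, ∀ y ∈ S, x ≠ y → r ≤ ‖x - y‖) →
        ENNReal.ofReal (S.card * r) ≤ ENNReal.ofReal (C / ν) *
          ∫⁻ τ in Ioo (T - 32 * r ^ 2 / ν) T, D τ)
    (hfr : ∃ᶠ h in 𝓝[>] (0 : ℝ), ∫⁻ τ in Ioo (T - h) T, D τ ≤ ENNReal.ofReal (M * √h)) :
    (S.card : ℝ) ≤ 6 * C * M / (ν * √ν) := by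
  obtain ⟨r₁, hr₁, hsep⟩ := fin_sep S
  have hs : 0 < √ν := Real.sqrt_pos.2 hν
  have hev : ∀ᶠ h in 𝓝[>] (0 : ℝ), 0 < h ∧ √(ν * h / 32) < min r₀ r₁ := by
    have h1 : Tendsto (fun h : ℝ => √(ν * h / 32)) (𝓝[>] 0) (𝓝 0) := by
      have : Tendsto (fun h : ℝ => √(ν * h / 32)) (𝓝 0) (𝓝 (√(ν * 0 / 32))) := by
        apply Continuous.tendsto
        fun_prop
      rw [mul_zero, zero_div, Real.sqrt_zero] at this
      exact this.mono_left nhdsWithin_le_nhds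
    filter_upwards [h1.eventually (gt_mem_nhds (lt_min hr₀ hr₁)), self_mem_nhdsWithin] with h h2 h3
    exact ⟨h3, h2⟩
  obtain ⟨h, hh1, hh0, hh2⟩ := (hfr.and_eventually hev).exists
  set r := √(ν * h / 32) with hr
  have hrpos : 0 < r := Real.sqrt_pos.2 (by positivity)
  have hr2 : r ^ 2 = ν * h / 32 := Real.sq_sqrt (by positivity)
  have e : 32 * r ^ 2 / ν = h := by
    rw [hr2]
    field_simp
  have key := H r hrpos (hh2.trans_le (min_le_left _ _)) S hS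
    fun x hx y hy hxy => (hh2.le.trans (min_le_right _ _)).trans (hsep x hx y hy hxy)
  rw [e] at key
  have h2 := key.trans (mul_le_mul_right hh1 _)
  rw [← ENNReal.ofReal_mul (by positivity), ENNReal.ofReal_le_ofReal_iff (by positivity)] at h2
  have h3 : √h = √32 * r / √ν := by
    have : h = 32 * r ^ 2 / ν := e.symm
    rw [this, Real.sqrt_div (by positivity), Real.sqrt_mul (by norm_num), Real.sqrt_sq hrpos.le]
  have h4 : √32 ≤ 6 := by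
    rw [Real.sqrt_le_left (by norm_num)]
    norm_num
  rw [h3] at h2
  have h5 : C / ν * (M * (√32 * r / √ν)) ≤ C / ν * (M * (6 * r / √ν)) := by gcongr
  have h6 : C / ν * (M * (6 * r / √ν)) = 6 * C * M / (ν * √ν) * r := by
    field_simp
  exact le_of_mul_le_mul_right ((h2.trans h5).trans h6.le) hrpos

/-- Domains: content and number of singular points. -/
theorem omega_final3 (h1 : S_OMEGA3) (h2 : S_OSC3) (h4 : S_MINK) :
    ∃ C : ℝ, 0 < C ∧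
    ∀ (ν T E F : ℝ) (Ω : Set V) (u : ℝ → V → V) (p : ℝ → V → ℝ) (f : ℝ → V → V), 0 < ν → 0 < T →
      OSolF ν T E F Ω u p f → ∀ K : Set V, IsCompact K → K ⊆ Ω →
      (∃ r₀ : ℝ, 0 < r₀ ∧ ∀ r : ℝ, 0 < r → r < r₀ → ∀ S : Finset V,
        (∀ x ∈ S, x ∈ K ∧ Sing T u x) → (∀ x ∈ S, ∀ y ∈ S, x ≠ y → r ≤ ‖x - y‖) →
          ENNReal.ofReal (S.card * r) ≤ ENNReal.ofReal (C / ν) *
            ∫⁻ t in Ioo (T - 32 * r ^ 2 / ν) T, ∫⁻ y in Ω, ENNReal.ofReal (gsq (u t) y)) ∧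
      (∫⁻ t in Ioo 0 T, ∫⁻ y in Ω, ENNReal.ofReal (gsq (u t) y) ≠ ⊤ →
        Tendsto (fun r : ℝ => volume (thickening r {x ∈ K | Sing T u x})
          / ENNReal.ofReal (r ^ 2)) (𝓝[>] 0) (𝓝 0)) ∧
      ∀ M : ℝ, 0 ≤ M → (∃ᶠ h in 𝓝[>] (0 : ℝ), ∫⁻ t in Ioo (T - h) T,
          ∫⁻ y in Ω, ENNReal.ofReal (gsq (u t) y) ≤ ENNReal.ofReal (M * √h)) →
        ∀ S : Finset V, (∀ x ∈ S, x ∈ Ω ∧ Sing T u x) → (S.card : ℝ) ≤ C * M / (ν * √ν) := by
  obtain ⟨C, hC, H⟩ := omega_all3 h1 h2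
  refine ⟨6 * C, by positivity, ?_⟩
  intro ν T E F Ω u p f hν hT hu K hK hKΩ
  obtain ⟨ρ, hρ, HK⟩ := H ν T E F Ω u p f hν hT hu K hK hKΩ
  refine ⟨⟨ρ, hρ, ?_⟩, ?_, ?_⟩
  · intro r hr hrr S hS hsep
    have h5 := HK r hr hrr S hS hsep
    refine h5.trans (mul_le_mul_left (ENNReal.ofReal_le_ofReal ?_) _)
    gcongr
    linarith
  · intro hfin
    apply h4
    intro ε hε
    obtain ⟨r₀, hr₀, H0⟩ := tail_lint (c := 32 / ν) hT (by positivity) hfin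
      (ε := ENNReal.ofReal (ε / (C / ν))) (ENNReal.ofReal_pos.2 (by positivity))
    refine ⟨min r₀ ρ, lt_min hr₀ hρ, ?_⟩
    intro r hr hrr S hS hsep
    obtain ⟨ha, hb⟩ := H0 r hr (hrr.trans_le (min_le_left _ _))
    have e : 32 / ν * r ^ 2 = 32 * r ^ 2 / ν := by ring
    rw [e] at ha hb
    have h5 := HK r hr (hrr.trans_le (min_le_right _ _)) S hS hsep
    have h6 := h5.trans (mul_le_mul_right hb _)
    rw [← ENNReal.ofReal_mul (by positivity)] at h6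
    have h7 : C / ν * (ε / (C / ν)) = ε := by field_simp
    rw [h7] at h6
    exact (ENNReal.ofReal_le_ofReal_iff hε.le).1 h6
  · intro M hM hfr S hS
    have hSc : IsCompact (S : Set V) := S.finite_toSet.isCompact
    obtain ⟨ρ', hρ', HS⟩ := H ν T E F Ω u p f hν hT hu S hSc fun x hx => (hS x hx).1
    exact number_aux hν hC hM T {x | x ∈ (S : Set V) ∧ Sing T u x}
      (fun t => ∫⁻ y in Ω, ENNReal.ofReal (gsq (u t) y)) hρ' S (fun x hx => ⟨hx, (hS x hx).2⟩)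
      (fun r hr hrr S' hS' hsep => HS r hr hrr S' hS' hsep) hfr

/-- Whole space: content and number of singular points. -/
theorem whole_final3 (h1 : S_WHOLE3) (h2 : S_OSC3) (h4 : S_MINK) :
    ∃ C : ℝ, 0 < C ∧
    ∀ (ν T E F : ℝ) (u : ℝ → V → V) (p : ℝ → V → ℝ) (f : ℝ → V → V), 0 < ν → 0 < T → 0 ≤ F →
      OSolF ν T E F univ u p f →
      (∀ r : ℝ, 0 < r → C * r ≤ 1 → C * F * r ^ 3 ≤ ν ^ 2 → 32 * r ^ 2 / ν < T → ∀ S : Finset V,
        (∀ x ∈ S, Sing T u x) → (∀ x ∈ S, ∀ y ∈ S, x ≠ y → r ≤ ‖x - y‖) →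
          ENNReal.ofReal (S.card * r) ≤ ENNReal.ofReal (C / ν) *
            ∫⁻ t in Ioo (T - 32 * r ^ 2 / ν) T, ∫⁻ y, ENNReal.ofReal (gsq (u t) y)) ∧
      (∫⁻ t in Ioo 0 T, ∫⁻ y, ENNReal.ofReal (gsq (u t) y) ≠ ⊤ →
        Tendsto (fun r : ℝ => volume (thickening r {x | Sing T u x})
          / ENNReal.ofReal (r ^ 2)) (𝓝[>] 0) (𝓝 0)) ∧
      ∀ M : ℝ, 0 ≤ M → (∃ᶠ h in 𝓝[>] (0 : ℝ), ∫⁻ t in Ioo (T - h) T,
          ∫⁻ y, ENNReal.ofReal (gsq (u t) y) ≤ ENNReal.ofReal (M * √h)) →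
        ∀ S : Finset V, (∀ x ∈ S, Sing T u x) → (S.card : ℝ) ≤ C * M / (ν * √ν) := by
  obtain ⟨C, hC, H⟩ := whole_all3 h1 h2
  refine ⟨6 * C, by positivity, ?_⟩
  intro ν T E F u p f hν hT hF hu'
  have hu : OSolF ν T |E| F univ u p f :=
    { hu' with en := fun t ht => by rw [sq_abs]; exact hu'.en t ht }
  have hE : 0 ≤ |E| := abs_nonneg E
  have hr₀ : ∃ ρ : ℝ, 0 < ρ ∧ ∀ r : ℝ, 0 < r → r < ρ → C * r ≤ 1 ∧ C * F * r ^ 3 ≤ ν ^ 2 ∧
      32 * r ^ 2 / ν < T := by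
    have c1 : ∀ᶠ r : ℝ in 𝓝 0, C * r < 1 := by
      have : Continuous fun r : ℝ => C * r := by fun_prop
      have := this.tendsto 0
      rw [mul_zero] at this
      exact this.eventually (gt_mem_nhds one_pos)
    have c2 : ∀ᶠ r : ℝ in 𝓝 0, C * F * r ^ 3 < ν ^ 2 := by
      have : Continuous fun r : ℝ => C * F * r ^ 3 := by fun_prop
      have := this.tendsto 0
      simp only [ne_eq, OfNat.ofNat_ne_zero, not_false_eq_true, zero_pow, mul_zero] at this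
      exact this.eventually (gt_mem_nhds (by positivity))
    have c3 : ∀ᶠ r : ℝ in 𝓝 0, 32 * r ^ 2 / ν < T := by
      have : Continuous fun r : ℝ => 32 * r ^ 2 / ν := by fun_prop
      have := this.tendsto 0
      simp only [ne_eq, OfNat.ofNat_ne_zero, not_false_eq_true, zero_pow, mul_zero,
        zero_div] at this
      exact this.eventually (gt_mem_nhds hT)
    obtain ⟨ρ, hρ, h⟩ := Metric.eventually_nhds_iff.1 (c1.and (c2.and c3))
    refine ⟨ρ, hρ, fun r hr hrr => ?_⟩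
    obtain ⟨a1, a2, a3⟩ := h (show dist r 0 < ρ by
      rw [Real.dist_eq, sub_zero, abs_of_pos hr]; exact hrr)
    exact ⟨a1.le, a2.le, a3⟩
  obtain ⟨ρ, hρ, hρ'⟩ := hr₀
  refine ⟨?_, ?_, ?_⟩
  · intro r hr hC1 hC2 hrT S hS hsep
    have h5 := H ν T |E| F u p f hν hT hE hF hu r hr (le_trans (by
      have : 0 ≤ C * r := by positivity
      linarith) hC1) (le_trans (by
      have : 0 ≤ C * F * r ^ 3 := by positivity
      linarith) hC2) hrT S hS hsep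
    refine h5.trans (mul_le_mul_left (ENNReal.ofReal_le_ofReal ?_) _)
    gcongr
    linarith
  · intro hfin
    apply h4
    intro ε hε
    obtain ⟨r₀, hr₀, H0⟩ := tail_lint (c := 32 / ν) hT (by positivity) hfin
      (ε := ENNReal.ofReal (ε / (C / ν))) (ENNReal.ofReal_pos.2 (by positivity))
    refine ⟨min r₀ ρ, lt_min hr₀ hρ, ?_⟩
    intro r hr hrr S hS hsep
    obtain ⟨ha, hb⟩ := H0 r hr (hrr.trans_le (min_le_left _ _))
    obtain ⟨b1, b2, b3⟩ := hρ' r hr (hrr.trans_le (min_le_right _ _))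
    have e : 32 / ν * r ^ 2 = 32 * r ^ 2 / ν := by ring
    rw [e] at ha hb
    have h5 := H ν T |E| F u p f hν hT hE hF hu r hr b1 b2 b3 S hS hsep
    have h6 := h5.trans (mul_le_mul_right hb _)
    rw [← ENNReal.ofReal_mul (by positivity)] at h6
    have h7 : C / ν * (ε / (C / ν)) = ε := by field_simp
    rw [h7] at h6
    exact (ENNReal.ofReal_le_ofReal_iff hε.le).1 h6
  · intro M hM hfr S hS
    exact number_aux hν hC hM T {x | Sing T u x}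
      (fun t => ∫⁻ y, ENNReal.ofReal (gsq (u t) y)) hρ S (fun x hx => hS x hx)
      (fun r hr hrr S' hS' hsep => by
        obtain ⟨b1, b2, b3⟩ := hρ' r hr hrr
        exact H ν T |E| F u p f hν hT hE hF hu r hr b1 b2 b3 S' hS' hsep) hfr

theorem cube_sub : cube ⊆ ball (0 : V) 3 := by
  intro x hx
  rw [mem_ball, dist_zero_right]
  have h1 : ‖x‖ ≤ 1 := by
    rw [pi_norm_le_iff_of_nonneg zero_le_one]
    intro i
    rw [Real.norm_eq_abs, abs_le]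
    have h2 : (0 : ℝ) ≤ x i := hx.1 i
    have h3 : x i ≤ 1 := hx.2 i
    constructor <;> linarith
  linarith

theorem slice_ico {T : ℝ} {u : ℝ → V → V}
    (hu : ContDiffOn ℝ ∞ (fun z : ℝ × V => u z.1 z.2) (Ico 0 T ×ˢ univ)) {t : ℝ}
    (ht : t ∈ Ico 0 T) : ContDiff ℝ ∞ (u t) := by
  rw [← contDiffOn_univ]
  exact hu.comp (f := fun x : V => (t, x)) (by fun_prop) (fun x _ => ⟨ht, mem_univ _⟩)

/-- Periodic solutions: content and number of singular points. -/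
theorem peri_final3 (h1 : S_OMEGA3) (h2 : S_OSC3) (h3 : S_PEN3) (h5 : S_PERO) (h4 : S_MINK) :
    ∃ C : ℝ, 0 < C ∧
    ∀ (ν T F : ℝ) (u : ℝ → V → V) (p : ℝ → V → ℝ) (f : ℝ → V → V), 0 < ν → 0 < T →
      IsSolF ν T F u p f →
      (∃ r₀ : ℝ, 0 < r₀ ∧ ∀ r : ℝ, 0 < r → r < r₀ → ∀ S : Finset V,
        (∀ x ∈ S, x ∈ cube ∧ Sing T u x) → (∀ x ∈ S, ∀ y ∈ S, x ≠ y → r ≤ ‖x - y‖) →
          S.card * r ≤ C / ν * ∫ t in Ioo (T - 32 * r ^ 2 / ν) T, enstrophy (u t)) ∧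
      Tendsto (fun r : ℝ => volume (thickening r {x ∈ cube | Sing T u x})
          / ENNReal.ofReal (r ^ 2)) (𝓝[>] 0) (𝓝 0) ∧
      ∀ M : ℝ, 0 ≤ M → (∃ᶠ h in 𝓝[>] (0 : ℝ), ∫ t in Ioo (T - h) T, enstrophy (u t) ≤ M * √h) →
        ∀ S : Finset V, (∀ x ∈ S, x ∈ cube ∧ Sing T u x) → (S.card : ℝ) ≤ C * M / (ν * √ν) := by
  obtain ⟨C, hC, H⟩ := omega_final3 h1 h2 h4
  obtain ⟨h5a, h5b⟩ := h5
  refine ⟨216 * C, by positivity, ?_⟩
  intro ν T F u p f hν hT hu'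
  have hu : IsSolF ν T |F| u p f :=
    { hu' with force := fun t ht => bd3_mono (le_abs_self F) (hu'.force t ht) }
  obtain ⟨⟨E, hE, hEn⟩, hint⟩ := h3 ν T |F| u p f hν hT (abs_nonneg F) hu
  have hO : OSolF ν T (15 * E) |F| (ball 0 3) u p f := h5a ν T E |F| u p f hT hE hu hEn
  obtain ⟨⟨ρ, hρ, a1⟩, a2, -⟩ := H ν T (15 * E) |F| (ball 0 3) u p f hν hT hO cube
    (isCompact_Icc) cube_sub
  have a3 := (H ν T (15 * E) |F| (ball 0 3) u p f hν hT hO cube (isCompact_Icc) cube_sub).2.2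
  have hen0 : ∀ t, 0 ≤ enstrophy (u t) := fun t => W221.NS.enstrophy_nonneg _
  have hsp : ∀ t ∈ Ioo 0 T, SPV (u t) := fun t ht =>
    ⟨slice_ico hu.smooth_u ⟨ht.1.le, ht.2⟩, hu.per_u t ⟨ht.1.le, ht.2⟩⟩
  have hdiss : ∀ h : ℝ, h ≤ T → ∫⁻ t in Ioo (T - h) T,
      ∫⁻ y in ball (0 : V) 3, ENNReal.ofReal (gsq (u t) y)
        = ENNReal.ofReal (216 * ∫ t in Ioo (T - h) T, enstrophy (u t)) := by
    intro h hh
    have hsub : Ioo (T - h) T ⊆ Ioo 0 T := fun t ht => ⟨by linarith [ht.1], ht.2⟩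
    rw [← integral_const_mul, ofReal_integral_eq_lintegral_ofReal
      ((hint.mono_set hsub).const_mul 216) (Eventually.of_forall fun t => by
        have := hen0 t
        positivity)]
    exact setLIntegral_congr_fun measurableSet_Ioo fun t ht => h5b _ (hsp t (hsub ht))
  refine ⟨?_, ?_, ?_⟩
  · obtain ⟨ρ₁, hρ₁, b1⟩ := tail_real (c := 32 / ν) hT (by positivity)
      (f := fun _ => (0 : ℝ)) integrableOn_zero (ε := 1) one_pos
    refine ⟨min ρ ρ₁, lt_min hρ hρ₁, ?_⟩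
    intro r hr hrr S hS hsep
    have k1 := a1 r hr (hrr.trans_le (min_le_left _ _)) S hS hsep
    have k2 := (b1 r hr (hrr.trans_le (min_le_right _ _))).1
    have e : 32 / ν * r ^ 2 = 32 * r ^ 2 / ν := by ring
    rw [e] at k2
    have k3 : 0 ≤ ∫ t in Ioo (T - 32 * r ^ 2 / ν) T, enstrophy (u t) :=
      integral_nonneg fun t => hen0 t
    rw [hdiss _ k2.le, ← ENNReal.ofReal_mul (by positivity),
      ENNReal.ofReal_le_ofReal_iff (by positivity)] at k1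
    calc S.card * r ≤ C / ν * (216 * ∫ t in Ioo (T - 32 * r ^ 2 / ν) T, enstrophy (u t)) := k1
      _ = 216 * C / ν * ∫ t in Ioo (T - 32 * r ^ 2 / ν) T, enstrophy (u t) := by ring
  · apply a2
    have e := hdiss T le_rfl
    rw [sub_self] at e
    rw [e]
    exact ENNReal.ofReal_ne_top
  · intro M hM hfr S hS
    have key := a3 (216 * M) (by positivity) ?_ S
      (fun x hx => ⟨cube_sub (hS x hx).1, (hS x hx).2⟩)
    · calc (S.card : ℝ) ≤ C * (216 * M) / (ν * √ν) := key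
        _ = 216 * C * M / (ν * √ν) := by ring
    · have hev : ∀ᶠ h in 𝓝[>] (0 : ℝ), h < T :=
        (eventually_lt_nhds hT).filter_mono nhdsWithin_le_nhds
      refine (hfr.and_eventually hev).mono fun h hh => ?_
      rw [hdiss h hh.2.le]
      refine ENNReal.ofReal_le_ofReal ?_
      have := hh.1
      linarith

end W221.NS
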