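import Pool.Agent.H459R3.NS.Defs

/-!
Definitions and statements of the parts of the partial regularity project (helper221): the
singular set of a smooth periodic solution of the Navier-Stokes equations at its first blow-up time
has box dimension at most one. `V = Fin 3 → ℝ` carries the sup norm, so all balls are cubes.
-/

open MeasureTheory Set Metric
open scoped ContDiff

namespace W221.NS

open H459R3.NS

/-! ### Definitions -/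

/-- A smooth bump: `1` on the closed ball of radius `1/2`, support the open unit ball. -/
noncomputable def bmp : ContDiffBump (0 : V) := ⟨1 / 2, 1, by norm_num, by norm_num⟩

/-- A smooth bump: `1` on the closed ball of radius `3/4`, support the open unit ball. -/
noncomputable def kap : ContDiffBump (0 : V) := ⟨3 / 4, 1, by norm_num, by norm_num⟩

/-- The normalised bump: integral `1`, support the open unit ball. -/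
noncomputable def th (z : V) : ℝ := bmp.normed volume z

/-- `|v|²` (Euclidean). -/
noncomputable def nsq (v : V → V) (x : V) : ℝ := ∑ i, v x i ^ 2

/-- `|∇v|²`. -/
noncomputable def gsq (v : V → V) (x : V) : ℝ := ∑ i, ∑ j, pd j (fun y => v y i) x ^ 2

/-- `∂ᵢ∂ⱼ(vᵢ vⱼ)`. -/
noncomputable def ddq (v : V → V) (x : V) : ℝ :=
  ∑ i, ∑ j, pd i (pd j (fun y => v y i * v y j)) x

/-- `v · ∇ f`. -/
noncomputable def adv (v : V → V) (f : V → ℝ) (x : V) : ℝ := ∑ j, v x j * pd j f x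

/-- `∫ |v|²` over the ball. -/
noncomputable def A2 (a : V) (ρ : ℝ) (v : V → V) : ℝ := ∫ z in ball a ρ, nsq v z

/-- `∫ |∇v|²` over the ball. -/
noncomputable def B2 (a : V) (ρ : ℝ) (v : V → V) : ℝ := ∫ z in ball a ρ, gsq v z

/-- `∫ |v|⁴` over the ball. -/
noncomputable def L4 (a : V) (ρ : ℝ) (v : V → V) : ℝ := ∫ z in ball a ρ, nsq v z ^ 2

/-- `∫ |v|⁶` over the ball. -/
noncomputable def L6 (a : V) (ρ : ℝ) (v : V → V) : ℝ := ∫ z in ball a ρ, nsq v z ^ 3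

/-- The radius `2⁻ᵏ`. -/
noncomputable def rr (k : ℕ) : ℝ := (1 / 2) ^ k

/-- A smooth solution on `(-1, 0) × ℝ³` (viscosity one) with weighted mean zero at all times. -/
structure Loc (v : ℝ → V → V) (q : ℝ → V → ℝ) : Prop where
  smooth_v : ContDiffOn ℝ ∞ (fun z : ℝ × V => v z.1 z.2) (Ioo (-1) 0 ×ˢ univ)
  smooth_q : ContDiffOn ℝ ∞ (fun z : ℝ × V => q z.1 z.2) (Ioo (-1) 0 ×ˢ univ)
  divfree : ∀ t ∈ Ioo (-1 : ℝ) 0, ∀ x, ∑ i, pd i (fun y => v t y i) x = 0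
  momentum : ∀ t ∈ Ioo (-1 : ℝ) 0, ∀ x i,
    deriv (fun s => v s x i) t + ∑ j, v t x j * pd j (fun y => v t y i) x
      = ∑ j, pd j (pd j (fun y => v t y i)) x - pd i (q t) x
  mean : ∀ t ∈ Ioo (-1 : ℝ) 0, ∀ i, ∫ z, th z * v t z i = 0

/-- The information at one time: `P` is the local pressure, `q - P` is almost linear. -/
structure Slice (v : V → V) (q P : V → ℝ) (G : ℝ) : Prop where
  sv : ContDiff ℝ ∞ v
  sq : ContDiff ℝ ∞ q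
  sP : ContDiff ℝ ∞ P
  div : ∀ x, ∑ i, pd i (fun y => v y i) x = 0
  mean : ∀ i, ∫ z, th z * v z i = 0
  grad : B2 0 2 v ≤ G
  eqP : ∀ x ∈ ball (0 : V) 1, -lap P x = ddq v x
  nP : ∫ x in ball (0 : V) 1, P x ^ 2 ≤ G ^ 2
  hess : ∀ x ∈ ball (0 : V) 1, ∀ i j, |pd i (pd j (fun y => q y - P y)) x| ≤ G
  force : ∀ i, |∫ z, th z * pd i q z| ≤ √G + G

/-- The hypothesis of the local regularity theorem. -/
def Hyp (v : ℝ → V → V) (q : ℝ → V → ℝ) (G : ℝ → ℝ) (ε : ℝ) : Prop :=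
  Loc v q ∧ (∀ t ∈ Ioo (-1 : ℝ) 0, ∃ P, Slice (v t) (q t) P (G t)) ∧
    IntegrableOn G (Ioo (-1) 0) ∧ ∫ t in Ioo (-1) 0, G t ≤ ε

/-- The test functions of the iteration. -/
structure TF (M c : ℝ) (a : V) (s : ℝ) (n : ℕ) (φ : ℕ → ℝ → V → ℝ) : Prop where
  smooth : ∀ k, ContDiffOn ℝ ∞ (fun z : ℝ × V => φ k z.1 z.2) (Iio (s + rr n ^ 2) ×ˢ univ)
  supp : ∀ k ∈ Finset.Icc 2 n, ∀ t, ∀ z ∉ ball a (rr k), φ k t z = 0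
  suppt : ∀ k ∈ Finset.Icc 2 n, ∀ t ≤ s - rr k ^ 2, ∀ z, φ k t z = 0
  size : ∀ k ∈ Finset.Icc 2 n, ∀ t ≤ s, ∀ z, |φ k t z| ≤ M * 8 ^ k
  grad : ∀ k ∈ Finset.Icc 2 n, ∀ t ≤ s, ∀ z i, |pd i (φ k t) z| ≤ M * 16 ^ k
  pos : ∀ t ≤ s, ∀ z, 0 ≤ ∑ k ∈ Finset.Icc 2 n, φ k t z
  out : ∀ t ≤ s, ∀ z, |∑ k ∈ Finset.Icc 5 n, φ k t z| ≤ ∑ k ∈ Finset.Icc 2 n, φ k t z
  heat : ∀ t ≤ s, ∀ z, deriv (fun t' => ∑ k ∈ Finset.Icc 2 n, φ k t' z) t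
    + lap (fun y => ∑ k ∈ Finset.Icc 2 n, φ k t y) z ≤ M
  low : ∀ t, s - rr (n + 1) ^ 2 < t → t ≤ s → ∀ z ∈ ball a (rr (n + 1)),
    c * 8 ^ n ≤ ∑ k ∈ Finset.Icc 2 n, φ k t z
  int : ∀ t ≤ s, ∫ z, ∑ k ∈ Finset.Icc 2 n, φ k t z ≤ M

/-- The bounds at scale `k` around `(a, s)`. -/
def IH (Λ : ℝ) (a : V) (s : ℝ) (v : ℝ → V → V) (k : ℕ) : Prop :=
  (∀ t, s - rr k ^ 2 < t → t ≤ s → A2 a (rr k) (v t) ≤ Λ / 8 ^ k) ∧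
    ∫ t in Ioc (s - rr k ^ 2) s, B2 a (rr k) (v t) ≤ Λ / 8 ^ k

/-- The sum which bounds the pressure and the cubic term at small scales. -/
noncomputable def PS (a : V) (v : V → V) (k : ℕ) : ℝ :=
  16 ^ k * √(L4 a (rr (k - 2)) v)
    + ∑ j ∈ Finset.Ico 3 (k - 2), √(32 ^ j) * √(8 ^ k) * √(L4 a (rr j) v)

/-! ### Local estimates at one time -/

/-- Parametric integrals over balls are continuous. -/
def S_PCONT : Prop := ∀ (α β : ℝ) (F : ℝ → V → ℝ) (a : V) (ρ : ℝ),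
  ContinuousOn (fun z : ℝ × V => F z.1 z.2) (Ioo α β ×ˢ univ) →
    ContinuousOn (fun t => ∫ z in ball a ρ, F t z) (Ioo α β)

/-- Continuity in time of the local quantities. -/
def S_CT : Prop := ∀ (α β : ℝ) (v : ℝ → V → V),
  ContDiffOn ℝ ∞ (fun z : ℝ × V => v z.1 z.2) (Ioo α β ×ˢ univ) →
    (∀ a ρ, ContinuousOn (fun t => A2 a ρ (v t)) (Ioo α β) ∧
      ContinuousOn (fun t => B2 a ρ (v t)) (Ioo α β)) ∧
    ∀ Φ : ℝ → V → ℝ, ContDiffOn ℝ ∞ (fun z : ℝ × V => Φ z.1 z.2) (Ioo α β ×ˢ univ) →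
      (∀ t ∈ Ioo α β, ∀ z ∉ ball (0 : V) 1, Φ t z = 0) →
        ContinuousOn (fun t => ∫ z, nsq (v t) z * Φ t z) (Ioo α β) ∧
        ContinuousOn (fun t => ∫ z, gsq (v t) z * Φ t z) (Ioo α β)

/-- Local Sobolev inequality. -/
def S_SOB : Prop := ∃ C : ℝ, 0 < C ∧ ∀ v : V → V, ContDiff ℝ ∞ v → ∀ (a : V) (ρ : ℝ), 0 < ρ →
  L6 a ρ v ≤ C * (B2 a (2 * ρ) v + (ρ ^ 2)⁻¹ * A2 a (2 * ρ) v) ^ 3

/-- Interpolation. -/
def S_L4 : Prop := ∃ C : ℝ, 0 < C ∧ ∀ v : V → V, ContDiff ℝ ∞ v → ∀ (a : V) (j k : ℕ), j ≤ k →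
  √(L4 a (rr (j + 1)) v) ≤ C * √(rr k) * (4 ^ k * A2 a (rr j) v + B2 a (rr j) v)

/-- Poincaré inequality with weighted mean zero. -/
def S_POINC : Prop := ∃ C : ℝ, 0 < C ∧ ∀ v : V → V, ContDiff ℝ ∞ v →
  (∀ i, ∫ z, th z * v z i = 0) → A2 0 2 v ≤ C * B2 0 2 v

/-- `L⁴` bound at unit scale. -/
def S_UNIT : Prop := ∃ C : ℝ, 0 < C ∧ ∀ v : V → V, ContDiff ℝ ∞ v →
  (∀ i, ∫ z, th z * v z i = 0) → √(L4 0 1 v) ≤ C * B2 0 2 v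

/-- Growth of the `L⁴` norm on large balls. -/
def S_GROW : Prop := ∃ C : ℝ, 0 < C ∧ ∀ v : V → V, ContDiff ℝ ∞ v →
  (∀ i, ∫ z, th z * v z i = 0) → ∀ k : ℕ,
    √(L4 0 (2 ^ k) v) ≤ C * √(8 ^ k) *
      (∑ j ∈ Finset.range (k + 2), 2 ^ j * √(B2 0 (2 ^ j) v / 8 ^ j)) ^ 2

/-- The local potential at unit scale (by Fourier series). -/
def S_RIESZ0 : Prop := ∃ C : ℝ, 0 < C ∧ ∀ f : Fin 3 → Fin 3 → V → ℝ,
  (∀ i j, ContDiff ℝ ∞ (f i j)) → (∀ i j, ∀ z ∉ ball (0 : V) (1 / 4), f i j z = 0) →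
    ∃ P : V → ℝ, ContDiff ℝ ∞ P ∧
      (∀ x ∈ ball (0 : V) (1 / 2), -lap P x = ∑ i, ∑ j, pd i (pd j (f i j)) x) ∧
      ∫ x in ball (0 : V) (1 / 2), P x ^ 2 ≤ C * ∑ i, ∑ j, ∫ x in ball (0 : V) (1 / 4), f i j x ^ 2

/-- The local potential. -/
def S_RIESZ : Prop := ∃ C : ℝ, 0 < C ∧ ∀ v : V → V, ContDiff ℝ ∞ v → ∀ (a : V) (ρ : ℝ), 0 < ρ →
  ∃ P : V → ℝ, ContDiff ℝ ∞ P ∧ (∀ x ∈ ball a (ρ / 2), -lap P x = ddq v x) ∧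
    ∫ x in ball a ρ, P x ^ 2 ≤ C * L4 a ρ v

/-- Harmonic functions at unit scale. -/
def S_HARM0 : Prop := ∃ C : ℝ, 0 < C ∧ ∀ g : V → ℝ, ContDiff ℝ ∞ g →
  (∀ x ∈ ball (0 : V) 1, lap g x = 0) → ∀ i,
    pd i g 0 ^ 2 ≤ C * ∫ x in ball (0 : V) 1, g x ^ 2 ∧
    ∀ j, pd i (pd j g) 0 ^ 2 ≤ C * ∫ x in ball (0 : V) 1, g x ^ 2

/-- Harmonic functions. -/
def S_HARM : Prop := ∃ C : ℝ, 0 < C ∧ ∀ g : V → ℝ, ContDiff ℝ ∞ g → ∀ (a : V) (ρ : ℝ), 0 < ρ →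
  (∀ x ∈ ball a ρ, lap g x = 0) → ∀ z ∈ ball a (ρ / 2), ∀ i,
    pd i g z ^ 2 ≤ C * (ρ ^ 5)⁻¹ * ∫ x in ball a ρ, g x ^ 2 ∧
    ∀ j, pd i (pd j g) z ^ 2 ≤ C * (ρ ^ 7)⁻¹ * ∫ x in ball a ρ, g x ^ 2

/-- The gradient of the almost linear part of the pressure. -/
def S_HB : Prop := ∃ C : ℝ, 0 < C ∧ ∀ (v : V → V) (q P : V → ℝ) (G : ℝ), Slice v q P G →
  ∀ z ∈ ball (0 : V) 1, ∀ i, |pd i (fun x => q x - P x) z| ≤ C * (√G + G)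

/-- The flux through the cut-off function at unit scale. -/
def S_CUT : Prop := ∃ C : ℝ, 0 < C ∧ ∀ (v : V → V) (q P : V → ℝ) (G : ℝ), Slice v q P G →
  |∫ z, (nsq v z + 2 * q z) * adv v (fun y => kap y ^ 2) z|
    ≤ C * G * (1 + √(∫ z, nsq v z * kap z ^ 2))

/-- The pressure at small scales. -/
def S_PK1 : Prop := ∀ C₀ M : ℝ, 0 < C₀ → 0 < M → ∃ C : ℝ, 0 < C ∧ ∀ v : V → V, ContDiff ℝ ∞ v →
  (∀ x, ∑ i, pd i (fun y => v y i) x = 0) → ∀ (a : V) (Q : ℕ → V → ℝ),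
    (∀ j, ContDiff ℝ ∞ (Q j) ∧ (∀ x ∈ ball a (rr j / 2), -lap (Q j) x = ddq v x) ∧
      ∫ x in ball a (rr j), Q j x ^ 2 ≤ C₀ * L4 a (rr j) v) →
    ∀ k : ℕ, 5 ≤ k → ∀ φ : V → ℝ, ContDiff ℝ ∞ φ → (∀ z ∉ ball a (rr k), φ z = 0) →
      (∀ z, |φ z| ≤ M * 8 ^ k) → (∀ z i, |pd i φ z| ≤ M * 16 ^ k) →
        |∫ z, Q 3 z * adv v φ z| ≤ C * √(A2 a (rr k) v) * PS a v k

/-- The flux through the test functions of the iteration at one time. -/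
def S_PK : Prop := ∀ M : ℝ, 1 ≤ M → ∃ C : ℝ, 0 < C ∧
  ∀ (v : V → V) (q P : V → ℝ) (G : ℝ), Slice v q P G → ∀ a ∈ ball (0 : V) (1 / 4),
    ∀ (K : Finset ℕ) (φ : ℕ → V → ℝ), (∀ k ∈ K, 2 ≤ k ∧ ContDiff ℝ ∞ (φ k) ∧
      (∀ z ∉ ball a (rr k), φ k z = 0) ∧ (∀ z, |φ k z| ≤ M * 8 ^ k) ∧
      (∀ z i, |pd i (φ k) z| ≤ M * 16 ^ k)) →
    (∀ z, 0 ≤ ∑ k ∈ K, φ k z) →
    (∀ z, |∑ k ∈ K.filter (fun k => 5 ≤ k), φ k z| ≤ ∑ k ∈ K, φ k z) →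
    ∫ z, ∑ k ∈ K, φ k z ≤ M →
      |∫ z, (nsq v z + 2 * q z) * adv v (fun y => ∑ k ∈ K, φ k y) z|
        ≤ C * (G * √(A2 0 (3 / 4) v) + (√G + G) * √(∫ z, nsq v z * ∑ k ∈ K, φ k z)
          + ∑ k ∈ K.filter (fun k => 5 ≤ k), √(A2 a (rr k) v) * PS a v k)

/-! ### Local estimates in time -/

/-- The local energy identity. -/
def S_EN : Prop := ∀ (v : ℝ → V → V) (q : ℝ → V → ℝ), Loc v q → ∀ α β : ℝ, -1 ≤ α → β ≤ 0 →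
  ∀ Φ : ℝ → V → ℝ, ContDiffOn ℝ ∞ (fun z : ℝ × V => Φ z.1 z.2) (Ioo α β ×ˢ univ) →
    (∀ t ∈ Ioo α β, ∀ z ∉ ball (0 : V) 1, Φ t z = 0) → ∀ t ∈ Ioo α β,
      HasDerivAt (fun s => ∫ z, nsq (v s) z * Φ s z)
        (-2 * (∫ z, gsq (v t) z * Φ t z)
          + (∫ z, nsq (v t) z * (deriv (fun s => Φ s z) t + lap (Φ t) z))
          + ∫ z, (nsq (v t) z + 2 * q t z) * adv (v t) (Φ t) z) t

/-- The mean force. -/
def S_FORCE : Prop := ∃ C : ℝ, 0 < C ∧ ∀ (v : ℝ → V → V) (q : ℝ → V → ℝ), Loc v q →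
  ∀ t ∈ Ioo (-1 : ℝ) 0, ∀ i,
    |∫ z, th z * pd i (q t) z| ≤ C * (√(B2 0 2 (v t)) + B2 0 2 (v t))

/-- The first step: smallness of the energy. -/
def S_BASE : Prop := ∃ C ε₀ : ℝ, 0 < C ∧ 0 < ε₀ ∧ ∀ ε : ℝ, 0 < ε → ε ≤ ε₀ →
  ∀ (v : ℝ → V → V) (q : ℝ → V → ℝ) (G : ℝ → ℝ), Hyp v q G ε →
    ∀ t ∈ Ioo (-9 / 16 : ℝ) 0, A2 0 (3 / 4) (v t) ≤ C * ε

/-- The test functions. -/
def S_TF : Prop := ∃ M c : ℝ, 1 ≤ M ∧ 0 < c ∧ ∀ (a : V) (s : ℝ) (n : ℕ), 5 ≤ n →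
  ∃ φ : ℕ → ℝ → V → ℝ, TF M c a s n φ

/-- The sum over all scales. -/
def S_TSUM : Prop := ∃ C : ℝ, 0 < C ∧ ∀ (Λ s : ℝ) (n : ℕ) (b : ℕ → ℝ → ℝ), 0 ≤ Λ →
  (∀ i ∈ Finset.Icc 2 n, ∀ t, 0 ≤ b i t) →
  (∀ i ∈ Finset.Icc 2 n, IntegrableOn (b i) (Ioc (s - rr i ^ 2) s) ∧
    ∫ t in Ioc (s - rr i ^ 2) s, b i t ≤ Λ / 8 ^ i) →
  IntegrableOn (fun t => ∑ k ∈ Finset.Icc 5 n, if s - rr k ^ 2 < t then
      √(1 / 8 ^ k) * √(rr k) * (16 ^ k * (4 ^ k * (Λ / 8 ^ (k - 3)) + b (k - 3) t)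
        + ∑ j ∈ Finset.Ico 3 (k - 2), √(32 ^ j) * √(8 ^ k) *
          (4 ^ k * (Λ / 8 ^ (j - 1)) + b (j - 1) t)) else 0) (Ioc (s - rr 2 ^ 2) s) ∧
  ∫ t in Ioc (s - rr 2 ^ 2) s, (∑ k ∈ Finset.Icc 5 n, if s - rr k ^ 2 < t then
      √(1 / 8 ^ k) * √(rr k) * (16 ^ k * (4 ^ k * (Λ / 8 ^ (k - 3)) + b (k - 3) t)
        + ∑ j ∈ Finset.Ico 3 (k - 2), √(32 ^ j) * √(8 ^ k) *
          (4 ^ k * (Λ / 8 ^ (j - 1)) + b (j - 1) t)) else 0) ≤ C * Λ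

/-- The induction step. -/
def S_STEP : Prop := ∃ C : ℝ, 0 < C ∧ ∀ ε : ℝ, 0 < ε → ε ≤ 1 →
  ∀ (v : ℝ → V → V) (q : ℝ → V → ℝ) (G : ℝ → ℝ), Hyp v q G ε → ∀ K₀ : ℝ, 0 ≤ K₀ →
    (∀ t ∈ Ioo (-9 / 16 : ℝ) 0, A2 0 (3 / 4) (v t) ≤ K₀ * ε) → ∀ Λ : ℝ, 0 ≤ Λ →
      ∀ a ∈ ball (0 : V) (1 / 4), ∀ s ∈ Ioo (-1 / 16 : ℝ) 0, ∀ n : ℕ, 5 ≤ n →
        (∀ k, 2 ≤ k → k ≤ n → IH Λ a s v k) →
          IH (C * ((1 + K₀) * ε + Λ * √Λ)) a s v (n + 1)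

/-- The local regularity theorem. -/
def S_LOC : Prop := ∃ ε C : ℝ, 0 < ε ∧ 0 < C ∧ ∀ (v : ℝ → V → V) (q : ℝ → V → ℝ) (G : ℝ → ℝ),
  Hyp v q G ε → ∀ t ∈ Ioo (-1 / 16 : ℝ) 0, ∀ z ∈ ball (0 : V) (1 / 4), ∀ i, |v t z i| ≤ C

/-! ### The periodic solution -/

/-- The equation for the pressure. -/
def S_DIV : Prop := ∀ (T : ℝ) (u : ℝ → V → V) (p : ℝ → V → ℝ), IsSol 1 T u p →
  ∀ t ∈ Ioo 0 T, ∀ x, -lap (p t) x = ddq (u t) x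

/-- The pressure on the torus. -/
def S_TPRESS : Prop := ∃ C : ℝ, 0 < C ∧ ∀ (u : V → V) (p : V → ℝ), SPV u → SP p →
  (∀ x, ∑ i, pd i (fun y => u y i) x = 0) → (∀ x, -lap p x = ddq u x) →
    ∫ x in cube, (p x - ∫ y in cube, p y) ^ 2 ≤ C * enstrophy u ^ 2

/-- The average of `|∇u|²` over the ball. -/
noncomputable def avg (u : V → V) (x : V) (ρ : ℝ) : ℝ := (∫ y in ball x ρ, gsq u y) / (2 * ρ) ^ 3

/-- The sum of the averages over all larger scales. -/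
noncomputable def FF (m : ℕ) (u : V → V) (x : V) : ℝ :=
  (∑ k ∈ Finset.range m, avg u x (2 ^ k / 2 ^ m) + enstrophy u) / 16 ^ m

/-- The far pressure. -/
def S_FAR : Prop := ∃ C : ℝ, 0 < C ∧ ∀ (u : V → V) (p : V → ℝ), SPV u → SP p →
  (∀ x, ∑ i, pd i (fun y => u y i) x = 0) → (∀ x, -lap p x = ddq u x) →
    ∀ m : ℕ, 4 ≤ m → ∀ (x c l : V) (v : V → V) (q : V → ℝ),
      (∀ z i, v z i = rr m * (u (x + rr m • z) i - c i)) →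
      (∀ z, q z = rr m ^ 2 * p (x + rr m • z) + ∑ i, l i * z i) →
      (∀ i, ∫ z, th z * v z i = 0) →
        ∃ P : V → ℝ, ContDiff ℝ ∞ P ∧ (∀ z ∈ ball (0 : V) 1, -lap P z = ddq v z) ∧
          ∫ z in ball (0 : V) 1, P z ^ 2 ≤ (C * FF m u x) ^ 2 ∧
          (∀ z ∈ ball (0 : V) 1, ∀ i j, |pd i (pd j (fun y => q y - P y)) z| ≤ C * FF m u x) ∧
          B2 0 2 v ≤ C * FF m u x

/-- The averages over the period cell. -/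
def S_AVG : Prop := ∀ u : V → V, SPV u → ∀ ρ : ℝ, 0 < ρ →
  Continuous (fun x => avg u x ρ) ∧ Per (fun x => avg u x ρ) ∧
    ∫ x in cube, avg u x ρ = enstrophy u

/-- The mollified velocity. -/
noncomputable def mol (r : ℝ) (u : ℝ → V → V) (t : ℝ) (x : V) : V :=
  fun i => ∫ y, th y * u t (x + r • y) i

/-- The mollified velocity is smooth, periodic and free of divergence. -/
def S_MOLL : Prop := ∀ (T : ℝ) (u : ℝ → V → V) (p : ℝ → V → ℝ), IsSol 1 T u p → ∀ r : ℝ, 0 < r →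
  ContDiffOn ℝ ∞ (fun z : ℝ × V => mol r u z.1 z.2) (Ioo 0 T ×ˢ univ) ∧
  (∀ t ∈ Ioo 0 T, Per (mol r u t)) ∧
  (∀ t ∈ Ioo 0 T, ∀ x, ∑ i, pd i (fun y => mol r u t y i) x = 0)

/-- The mollified velocity is bounded. -/
def S_MBD : Prop := ∀ (T : ℝ) (u : ℝ → V → V) (p : ℝ → V → ℝ), IsSol 1 T u p → ∀ r : ℝ, 0 < r →
  ∃ M : ℝ, 0 ≤ M ∧ ∀ t ∈ Ioo 0 T, ∀ x, ‖mol r u t x‖ ≤ M

/-- Lagrangian coordinates, labelled by the final position (without measure preservation). -/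
structure Flow0 (U : ℝ → V → V) (α β : ℝ) (X : ℝ → V → V) : Prop where
  cont : ContinuousOn (fun z : ℝ × V => X z.1 z.2) (Icc α β ×ˢ univ)
  fin : ∀ x, X β x = x
  ode : ∀ x, ∀ t ∈ Ioo α β, HasDerivAt (fun τ => X τ x) (U t (X t x)) t
  smooth : ∀ x, ContDiffOn ℝ ∞ (fun τ => X τ x) (Ioo α β)
  per : ∀ t ∈ Icc α β, ∀ x i, X t (x + Pi.single i 1) = X t x + Pi.single i 1

/-- Measure preserving Lagrangian coordinates, labelled by the final position. -/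
structure Flow (U : ℝ → V → V) (α β : ℝ) (X : ℝ → V → V) : Prop extends Flow0 U α β X where
  meas : ∀ t ∈ Icc α β, ∀ f : V → ℝ, Continuous f → Per f →
    ∫ x in cube, f (X t x) = ∫ x in cube, f x

/-- A smooth periodic vector field without divergence. -/
def Good (T : ℝ) (U : ℝ → V → V) : Prop :=
  ContDiffOn ℝ ∞ (fun z : ℝ × V => U z.1 z.2) (Ioo 0 T ×ˢ univ) ∧
  (∀ t ∈ Ioo 0 T, Per (U t)) ∧ (∀ t ∈ Ioo 0 T, ∀ x, ∑ i, pd i (fun y => U t y i) x = 0)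

/-- Existence of the flow. -/
def S_FLOWX : Prop := ∀ (T : ℝ) (U : ℝ → V → V), Good T U →
  ∀ α β : ℝ, 0 < α → α < β → β < T → ∃ X : ℝ → V → V, Flow0 U α β X

/-- Measure preservation of one Euler step for functions of compact support. -/
def S_EULER : Prop := ∀ L : ℝ, 0 ≤ L → ∃ C h₀ : ℝ, 0 < C ∧ 0 < h₀ ∧ ∀ U : V → V, ContDiff ℝ 1 U →
  (∀ x i j, |pd j (fun y => U y i) x| ≤ L) → (∀ x, ∑ i, pd i (fun y => U y i) x = 0) →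
    ∀ h : ℝ, |h| ≤ h₀ → ∀ f : V → ℝ, Continuous f → HasCompactSupport f →
      (∀ x, 0 ≤ f x) → |(∫ x, f (x + h • U x)) - ∫ x, f x| ≤ C * h ^ 2 * ∫ x, f x

/-- Measure preservation for functions of compact support. -/
def S_FLOWC : Prop := ∀ (T : ℝ) (U : ℝ → V → V), Good T U →
  ∀ α β : ℝ, 0 < α → α < β → β < T → ∀ X : ℝ → V → V, Flow0 U α β X →
    ∀ t ∈ Icc α β, ∀ f : V → ℝ, Continuous f → HasCompactSupport f → (∀ x, 0 ≤ f x) →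
      ∫ x, f (X t x) = ∫ x, f x

/-- From functions of compact support to periodic functions. -/
def S_FLOWP : Prop := ∀ Y : V → V, Continuous Y →
  (∀ x i, Y (x + Pi.single i 1) = Y x + Pi.single i 1) →
  (∀ f : V → ℝ, Continuous f → HasCompactSupport f → (∀ x, 0 ≤ f x) →
      ∫ x, f (Y x) = ∫ x, f x) →
    ∀ f : V → ℝ, Continuous f → Per f → ∫ x in cube, f (Y x) = ∫ x in cube, f x

/-- The velocity in the moving frame. -/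
noncomputable def frv (r s : ℝ) (X : ℝ → V) (u : ℝ → V → V) (t : ℝ) (z : V) : V :=
  fun i => r * (u (s + r ^ 2 * t) (X (s + r ^ 2 * t) + r • z) i
    - deriv (fun τ => X τ i) (s + r ^ 2 * t))

/-- The pressure in the moving frame. -/
noncomputable def frq (r s : ℝ) (X : ℝ → V) (p : ℝ → V → ℝ) (t : ℝ) (z : V) : ℝ :=
  r ^ 2 * p (s + r ^ 2 * t) (X (s + r ^ 2 * t) + r • z)
    + ∑ i, r ^ 3 * deriv (deriv (fun τ => X τ i)) (s + r ^ 2 * t) * z i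

/-- The equations in the moving frame. -/
def S_FRAME : Prop := ∀ (T : ℝ) (u : ℝ → V → V) (p : ℝ → V → ℝ), IsSol 1 T u p → ∀ r s : ℝ,
  0 < r → r ^ 2 < s → s < T → ∀ X : ℝ → V, ContDiffOn ℝ ∞ X (Ioo (s - r ^ 2) s) →
    (∀ t ∈ Ioo (s - r ^ 2) s, HasDerivAt X (mol r u t (X t)) t) →
      Loc (frv r s X u) (frq r s X p)

/-- The information at one time in the moving frame. -/
def S_SLICE : Prop := ∃ C : ℝ, 0 < C ∧ ∀ (T : ℝ) (u : ℝ → V → V) (p : ℝ → V → ℝ),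
  IsSol 1 T u p → ∀ (m : ℕ) (s : ℝ), 4 ≤ m → rr m ^ 2 < s → s < T → ∀ X : ℝ → V,
    ContDiffOn ℝ ∞ X (Ioo (s - rr m ^ 2) s) →
    (∀ t ∈ Ioo (s - rr m ^ 2) s, HasDerivAt X (mol (rr m) u t (X t)) t) →
      ∀ t ∈ Ioo (-1 : ℝ) 0, ∃ P, Slice (frv (rr m) s X u t) (frq (rr m) s X p t) P
        (C * FF m (u (s + rr m ^ 2 * t)) (X (s + rr m ^ 2 * t)))

/-- Markov's inequality along the flow. -/
def S_MARK : Prop := ∀ (T : ℝ) (u : ℝ → V → V) (p : ℝ → V → ℝ), IsSol 1 T u p → ∀ (m : ℕ) (s : ℝ),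
  rr m ^ 2 < s → s < T → ∀ X : ℝ → V → V, Flow (mol (rr m) u) (s - rr m ^ 2) s X →
    (∀ x, IntegrableOn (fun t => FF m (u (s + rr m ^ 2 * t)) (X (s + rr m ^ 2 * t) x))
      (Ioo (-1) 0)) ∧
    Continuous (fun x => ∫ t in Ioo (-1 : ℝ) 0,
      FF m (u (s + rr m ^ 2 * t)) (X (s + rr m ^ 2 * t) x)) ∧
    Per (fun x => ∫ t in Ioo (-1 : ℝ) 0,
      FF m (u (s + rr m ^ 2 * t)) (X (s + rr m ^ 2 * t) x)) ∧
    ∫ x in cube, (∫ t in Ioo (-1 : ℝ) 0, FF m (u (s + rr m ^ 2 * t)) (X (s + rr m ^ 2 * t) x))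
      = (m + 1) / 4 ^ m * ∫ t in Ioo (s - rr m ^ 2) s, enstrophy (u t)

/-- Packing of balls in the torus. -/
def S_PACK : Prop := ∀ (H : V → ℝ) (ε ρ : ℝ) (S : Finset V), Continuous H → Per H →
  (∀ x, 0 ≤ H x) → 0 < ρ → ρ ≤ 1 / 2 →
  (∀ x ∈ S, ∀ y ∈ S, x ≠ y → ∀ k : K3, 2 * ρ ≤ ‖x - y - fun i => (k i : ℝ)‖) →
  (∀ x ∈ S, ∀ z ∈ ball x ρ, ε ≤ H z) → S.card * (2 * ρ) ^ 3 * ε ≤ ∫ x in cube, H x

/-- The enstrophy is integrable. -/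
def S_ENST : Prop := ∀ (ν T : ℝ) (u : ℝ → V → V) (p : ℝ → V → ℝ), 0 < ν → 0 < T →
  IsSol ν T u p → IntegrableOn (fun t => enstrophy (u t)) (Ioo 0 T)

/-- The point `x` is singular at the time `T`. -/
def Sing (T : ℝ) (u : ℝ → V → V) (x : V) : Prop :=
  ∀ δ > 0, ∀ B : ℝ, ∃ t ∈ Ioo (T - δ) T, ∃ y ∈ ball x δ, B < ‖u t y‖

/-- The number of separated singular points. -/
def S_COUNT : Prop := ∃ C : ℝ, 0 < C ∧ ∀ (T : ℝ) (u : ℝ → V → V) (p : ℝ → V → ℝ),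
  0 < T → IsSol 1 T u p → ∀ m : ℕ, 4 ≤ m → 2 * rr m ^ 2 < T → ∀ S : Finset V,
    (∀ x ∈ S, Sing T u x) →
    (∀ x ∈ S, ∀ y ∈ S, x ≠ y → ∀ k : K3, rr m / 4 ≤ ‖x - y - fun i => (k i : ℝ)‖) →
      S.card * rr m ≤ C * (m + 1) * ∫ t in Ioo (T - 2 * rr m ^ 2) T, enstrophy (u t)

/-- Scaling to viscosity one. -/
def S_SCALE : Prop := ∀ (ν T : ℝ) (u : ℝ → V → V) (p : ℝ → V → ℝ), 0 < ν → 0 < T →
  IsSol ν T u p →
    IsSol 1 (ν * T) (fun t x => ν⁻¹ • u (t / ν) x) (fun t x => (ν ^ 2)⁻¹ * p (t / ν) x)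

end W221.NS
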