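import Pool.Agent.W221.NS.Fin
import Pool.Agent.W333.MD.PCONT
import Pool.Agent.W335.MD.CT
import Pool.Agent.W440.MD.SOB
import Pool.Agent.W790.MD.L4
import Pool.Agent.W12.MD.POINC
import Pool.Agent.W395.MD.UNIT
import Pool.Agent.W12.MD.GROW
import Pool.Agent.W12.MD.RIESZ0
import Pool.Agent.W215.MD.Riesz
import Pool.Agent.W12.MD.HARM0
import Pool.Agent.W346.MD.HARM
import Pool.Agent.W839.MD.HB
import Pool.Agent.W162.MD.CUT
import Pool.Agent.W337.MD.PK1
import Pool.Agent.W386.MD.PK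
import Pool.Agent.W583.MD.EN
import Pool.Agent.W928.MD.FORCE
import Pool.Agent.W605.MD.BASE
import Pool.Agent.W918.MD.TF
import Pool.Agent.W346.MD.TSUM
import Pool.Agent.W612.MD.STEP
import Pool.Agent.W648.MD.LOC
import Pool.Agent.W753.MD.DIV
import Pool.Agent.W962.MD.TPRESS
import Pool.Agent.W135.MD.FAR
import Pool.Agent.W737.MD.AVG
import Pool.Agent.W496.MD.MOLL
import Pool.Agent.W917.MD.MBD
import Pool.Agent.W398.MD.FLOWX
import Pool.Agent.W940.MD.EULER
import Pool.Agent.W645.MD.Flowc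
import Pool.Agent.W120.MD.FLOWP
import Pool.Agent.W61.MD.FRAME
import Pool.Agent.W120.MD.SLICE
import Pool.Agent.W120.MD.MARK
import Pool.Agent.W120.MD.PACK
import Pool.Agent.W125.MD.ENST
import Pool.Agent.W930.MD.Scale
import Pool.Agent.W414.MD.Count

/-!
Assembly of the first stage.
-/

open MeasureTheory Set Metric
open scoped ContDiff

namespace W221.NS

open H459R3.NS

theorem p_pcont : S_PCONT := Pool.Agent.W333.MD.t_PCONT
theorem p_ct : S_CT := W335.MD.t_CT p_pcont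
theorem p_sob : S_SOB := Pool.Agent.W440.MD.t_SOB
theorem p_l4 : S_L4 := Pool.Agent.W790.MD.t_L4 p_sob
theorem p_poinc : S_POINC := Pool.Agent.W12.MD.t_POINC
theorem p_unit : S_UNIT := Pool.Agent.W395.MD.t_UNIT p_poinc p_sob
theorem p_grow : S_GROW := Pool.Agent.W12.MD.t_GROW p_poinc p_sob
theorem p_riesz0 : S_RIESZ0 := Pool.Agent.W12.MD.R0.t_RIESZ0
theorem p_riesz : S_RIESZ := Pool.Agent.W215.MD.t_RIESZ p_riesz0
theorem p_harm0 : S_HARM0 := Pool.Agent.W12.MD.t_HARM0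
theorem p_harm : S_HARM := Pool.Agent.W346.MD.t_HARM p_harm0
theorem p_hb : S_HB := Pool.Agent.W839.MD.t_HB
theorem p_cut : S_CUT := W162.MD.t_CUT p_unit p_poinc p_hb
theorem p_pk1 : S_PK1 := Pool.Agent.W337.MD.PK1.t_PK1 p_harm
theorem p_pk : S_PK := Pool.Agent.W386.MD.t_PK p_riesz p_harm p_hb p_unit p_pk1
theorem p_en : S_EN := Pool.Agent.W583.MD.t_EN
theorem p_force : S_FORCE := Pool.Agent.W928.MD.t_FORCE p_poinc
theorem p_base : S_BASE := W605.MD.t_BASE p_en p_cut p_poinc p_ct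
theorem p_tf : S_TF := W918.MD.t_TF
theorem p_tsum : S_TSUM := Pool.Agent.W346.MD.t_TSUM
theorem p_step : S_STEP := W612.MD.t_STEP p_tf p_en p_pk p_l4 p_tsum p_ct
theorem p_loc : S_LOC := Pool.Agent.W648.MD.t_LOC p_base p_step p_ct
theorem p_div : S_DIV := Pool.Agent.W753.MD.DIV.t_DIV
theorem p_tpress : S_TPRESS := Pool.Agent.W962.MD.t_TPRESS
theorem p_far : S_FAR := Pool.Agent.W135.MD.t_FAR p_grow p_riesz p_harm p_tpress
theorem p_avg : S_AVG := Pool.Agent.W737.MD.t_AVG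
theorem p_moll : S_MOLL := W496.MD.t_MOLL
theorem p_mbd : S_MBD := Pool.Agent.W917.MD.t_MBD
theorem p_flowx : S_FLOWX := W398.MD.FLOWX.t_FLOWX
theorem p_euler : S_EULER := Pool.Agent.W940.MD.t_EULER
theorem p_flowc : S_FLOWC := Pool.Agent.W645.MD.t_FLOWC p_euler
theorem p_flowp : S_FLOWP := Pool.Agent.W120.MD.t_FLOWP
theorem p_frame : S_FRAME := Pool.Agent.W61.MD.FRAME.t_FRAME
theorem p_slice : S_SLICE := Pool.Agent.W120.MD.t_SLICE p_frame p_far p_force p_div
theorem p_mark : S_MARK := Pool.Agent.W120.MD.t_MARK p_avg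
theorem p_pack : S_PACK := Pool.Agent.W120.MD.t_PACK
theorem p_enst : S_ENST := Pool.Agent.W125.MD.t_ENST
theorem p_scale : S_SCALE := Pool.Agent.W930.MD.t_SCALE
theorem p_count : S_COUNT :=
  W414.MD.t_COUNT p_loc p_slice p_frame p_moll p_mbd p_flowx p_flowc p_flowp p_mark p_pack p_enst

end W221.NS
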