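import Pool.Agent.W221.NS.Stm

/-!
Second stage (helper221): local, pressure-free version. No logarithm, whole space, local domains.
-/

open MeasureTheory Set Metric
open scoped ContDiff ENNReal

namespace W221.NS

open H459R3.NS

/-! ### Definitions -/

/-- A smooth bump: `1` on the closed ball of radius `2`, support the open ball of radius `4`. -/
noncomputable def chi : ContDiffBump (0 : V) := ⟨2, 4, by norm_num, by norm_num⟩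

/-- The divergence. -/
noncomputable def dv (v : V → V) (x : V) : ℝ := ∑ i, pd i (fun y => v y i) x

/-- A smooth field on `(-1, 0) × ℝ³` which solves the Navier-Stokes equations (viscosity one) on the
ball of radius `8` and has weighted mean zero. -/
structure Loc2 (v : ℝ → V → V) (q : ℝ → V → ℝ) : Prop where
  smooth_v : ContDiffOn ℝ ∞ (fun z : ℝ × V => v z.1 z.2) (Ioo (-1) 0 ×ˢ univ)
  smooth_q : ContDiffOn ℝ ∞ (fun z : ℝ × V => q z.1 z.2) (Ioo (-1) 0 ×ˢ univ)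
  divfree : ∀ t ∈ Ioo (-1 : ℝ) 0, ∀ x ∈ ball (0 : V) 8, dv (v t) x = 0
  momentum : ∀ t ∈ Ioo (-1 : ℝ) 0, ∀ x ∈ ball (0 : V) 8, ∀ i,
    deriv (fun s => v s x i) t + adv (v t) (fun y => v t y i) x
      = lap (fun y => v t y i) x - pd i (q t) x
  mean : ∀ t ∈ Ioo (-1 : ℝ) 0, ∀ i, ∫ z, th z * v t z i = 0

/-- Convolution with the kernel `g`. -/
noncomputable def KK (g f : V → ℝ) (x : V) : ℝ := ∫ y, g (x - y) * f y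

/-- `f` is smooth with support in the ball of radius `4`. -/
def T4 (f : V → ℝ) : Prop := ContDiff ℝ ∞ f ∧ ∀ z ∉ ball (0 : V) 4, f z = 0

/-- `g` is a Green function of the torus of period `16`. -/
structure IsGreen (g : V → ℝ) (C : ℝ) : Prop where
  loc : LocallyIntegrable g
  smooth : ∀ f, T4 f → ContDiff ℝ ∞ (KK g f)
  pdK : ∀ f, T4 f → ∀ i, pd i (KK g f) = KK g (pd i f)
  eqn : ∀ f, T4 f → ∀ x ∈ ball (0 : V) 8, -lap (KK g f) x = f x - (∫ y, f y) / 16 ^ 3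
  n0 : ∀ f, T4 f → ∫ x in ball (0 : V) 8, KK g f x ^ 2 ≤ C * ∫ x, f x ^ 2
  n1 : ∀ f, T4 f → ∀ i, ∫ x in ball (0 : V) 8, pd i (KK g f) x ^ 2 ≤ C * ∫ x, f x ^ 2
  n2 : ∀ f, T4 f → ∀ i j, ∫ x in ball (0 : V) 8, pd i (pd j (KK g f)) x ^ 2 ≤ C * ∫ x, f x ^ 2

/-- The field whose curl is locally the curl of `v`. -/
noncomputable def TT (g : V → ℝ) (v : V → V) (x : V) : V := fun i =>
  ∑ j, pd j (KK g (fun y => chi y * (pd i (fun w => v w j) y - pd j (fun w => v w i) y))) x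

/-- The information at one time. -/
structure Slice2 (v W N : V → V) (P : V → ℝ) (G : ℝ) : Prop where
  sv : ContDiff ℝ ∞ v
  sW : ContDiff ℝ ∞ W
  sN : Continuous N
  sP : ContDiff ℝ ∞ P
  divv : ∀ x ∈ ball (0 : V) 1, dv v x = 0
  divW : ∀ x ∈ ball (0 : V) 1, dv W x = 0
  mean : ∀ i, ∫ z, th z * v z i = 0
  grad : B2 0 8 v ≤ G
  dD : ∀ z ∈ ball (0 : V) 1, ∀ i, |v z i - W z i| ≤ √G
  gD : ∀ z ∈ ball (0 : V) 1, ∀ i j, |pd j (fun y => v y i - W y i) z| ≤ √G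
  lapD : ∀ z ∈ ball (0 : V) 1, ∀ i, lap (fun y => v y i) z = lap (fun y => W y i) z
  eqP : ∀ x ∈ ball (0 : V) 1, -lap P x = ddq v x
  nP : ∫ x in ball (0 : V) 1, P x ^ 2 ≤ G ^ 2
  evo : ∀ x ∈ ball (0 : V) 1, ∀ i,
    |N x i + adv v (fun y => v y i) x - lap (fun y => v y i) x + pd i P x| ≤ √G + G

/-- The hypothesis of the local regularity theorem. -/
def Hyp2 (v W : ℝ → V → V) (G : ℝ → ℝ) (ε : ℝ) : Prop :=
  ContDiffOn ℝ ∞ (fun z : ℝ × V => v z.1 z.2) (Ioo (-1) 0 ×ˢ univ) ∧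
  ContDiffOn ℝ ∞ (fun z : ℝ × V => W z.1 z.2) (Ioo (-1) 0 ×ˢ univ) ∧
  (∀ t ∈ Ioo (-1 : ℝ) 0, ∃ P,
    Slice2 (v t) (W t) (fun x i => deriv (fun s => W s x i) t) P (G t)) ∧
  IntegrableOn G (Ioo (-1) 0) ∧ ∫ t in Ioo (-1) 0, G t ≤ ε

/-- The test functions with the additional decay. -/
structure TF2 (M c : ℝ) (a : V) (s : ℝ) (n : ℕ) (φ : ℕ → ℝ → V → ℝ) : Prop extends
    TF M c a s n φ where
  size2 : ∀ k ∈ Finset.Icc 2 n, ∀ t ≤ s, ∀ z,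
    |φ k t z| ≤ M * 8 ^ k * (2 ^ k * √(rr n ^ 2 + (s - t)))

/-- The bounds at scale `k` around the path `y`. -/
def IH2 (Λ : ℝ) (y : ℝ → V) (s : ℝ) (W : ℝ → V → V) (k : ℕ) : Prop :=
  (∀ t, s - rr k ^ 2 < t → t ≤ s → A2 (y t) (rr k) (W t) ≤ Λ / 8 ^ k) ∧
    ∫ t in Ioc (s - rr k ^ 2) s, B2 (y t) (rr k) (W t) ≤ Λ / 8 ^ k

/-- A path which follows `v - W` and ends at the time `s` in the point `a`. -/
def Path (v W : ℝ → V → V) (a : V) (s : ℝ) (y : ℝ → V) : Prop :=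
  y s = a ∧ ∃ δ > 0, s + δ < 0 ∧ ContDiffOn ℝ ∞ y (Ioo (s - 1 / 8) (s + δ)) ∧
    ∀ t ∈ Ioo (s - 1 / 8) (s + δ),
      HasDerivAt y (fun i => v t (y t) i - W t (y t) i) t ∧ y t ∈ ball (0 : V) (3 / 8)

/-! ### The linear decomposition -/

/-- The Green function. -/
def S_GREEN : Prop := ∃ (g : V → ℝ) (C : ℝ), 0 < C ∧ IsGreen g C

/-- Joint smoothness of the decomposition, and its time derivative. -/
def S_TSM : Prop := ∀ (g : V → ℝ) (C : ℝ), IsGreen g C → ∀ v : ℝ → V → V,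
  ContDiffOn ℝ ∞ (fun z : ℝ × V => v z.1 z.2) (Ioo (-1) 0 ×ˢ univ) →
    ContDiffOn ℝ ∞ (fun z : ℝ × V => TT g (v z.1) z.2) (Ioo (-1) 0 ×ˢ univ) ∧
    ∀ t ∈ Ioo (-1 : ℝ) 0, ∀ x i, deriv (fun s => TT g (v s) x i) t
      = TT g (fun y i => deriv (fun s => v s y i) t) x i

/-- The harmonic part of the decomposition. -/
def S_DEC : Prop := ∀ (g : V → ℝ) (C : ℝ), IsGreen g C → ∃ C' : ℝ, 0 < C' ∧
  ∀ v : V → V, ContDiff ℝ ∞ v → (∀ x ∈ ball (0 : V) 8, dv v x = 0) →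
    ContDiff ℝ ∞ (TT g v) ∧ (∀ x, dv (TT g v) x = 0) ∧
    (∀ z ∈ ball (0 : V) 2, ∀ i, lap (fun y => v y i) z = lap (fun y => TT g v y i) z) ∧
    ∀ z ∈ ball (0 : V) 1, ∀ i, |v z i - TT g v z i| ≤ C' * √(A2 0 4 v) ∧
      ∀ j, |pd j (fun y => v y i - TT g v y i) z| ≤ C' * √(A2 0 4 v)

/-- The operator applied to a derivative: `T(∂ₗ f) = ∂ₗ f + ∇ ∂ₗ K div(χ f) + harmonic`. -/
def S_TD : Prop := ∀ (g : V → ℝ) (C : ℝ), IsGreen g C → ∃ C' : ℝ, 0 < C' ∧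
  ∀ (f : V → V) (l : Fin 3), ContDiff ℝ ∞ f → ∃ H : V → V, ContDiff ℝ ∞ H ∧
    (∀ z ∈ ball (0 : V) 2, ∀ i, TT g (fun y i => pd l (fun w => f w i) y) z i
      = pd l (fun w => f w i) z
        + pd i (pd l (KK g (fun y => ∑ j, pd j (fun w => chi w * f w j) y))) z + H z i) ∧
    ∀ z ∈ ball (0 : V) 1, ∀ i, |H z i| ≤ C' * √(A2 0 4 f)

/-- The evolution of the decomposition at one time. -/
def S_DECT : Prop := ∀ (g : V → ℝ) (C : ℝ), IsGreen g C → ∃ C' : ℝ, 0 < C' ∧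
  ∀ (v N : V → V) (q : V → ℝ), ContDiff ℝ ∞ v → ContDiff ℝ ∞ N → ContDiff ℝ ∞ q →
    (∀ x ∈ ball (0 : V) 8, dv v x = 0) →
    (∀ x ∈ ball (0 : V) 8, ∀ i, N x i + adv v (fun y => v y i) x
      = lap (fun y => v y i) x - pd i q x) →
      ∃ P : V → ℝ, ContDiff ℝ ∞ P ∧ (∀ x ∈ ball (0 : V) 1, -lap P x = ddq v x) ∧
        ∫ x in ball (0 : V) 1, P x ^ 2 ≤ C' * L4 0 4 v ∧
        ∀ x ∈ ball (0 : V) 1, ∀ i,
          |TT g N x i + adv v (fun y => v y i) x - lap (fun y => v y i) x + pd i P x|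
            ≤ C' * (√(B2 0 4 v) + √(L4 0 4 v))

/-- From a solution to the hypothesis of the local regularity theorem. -/
def S_HYP : Prop := ∀ (g : V → ℝ) (C : ℝ), IsGreen g C → ∃ C' : ℝ, 0 < C' ∧
  ∀ (v : ℝ → V → V) (q : ℝ → V → ℝ), Loc2 v q → ∀ ε : ℝ,
    IntegrableOn (fun t => B2 0 8 (v t)) (Ioo (-1) 0) →
    C' * ∫ t in Ioo (-1) 0, B2 0 8 (v t) ≤ ε →
      Hyp2 v (fun t => TT g (v t)) (fun t => C' * B2 0 8 (v t)) ε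

/-! ### The local regularity theorem -/

/-- Bounds at unit scale. -/
def S_WB : Prop := ∃ C : ℝ, 0 < C ∧ ∀ (v W N : V → V) (P : V → ℝ) (G : ℝ), Slice2 v W N P G →
  A2 0 1 W ≤ C * G ∧ B2 0 1 W ≤ C * G ∧ √(L4 0 1 W) ≤ C * G ∧ √(L4 0 1 v) ≤ C * G

/-- The energy inequality. -/
def S_EN2 : Prop := ∃ C : ℝ, 0 < C ∧ ∀ (v W : ℝ → V → V) (G : ℝ → ℝ) (ε : ℝ), Hyp2 v W G ε →
  ∀ α β : ℝ, -1 ≤ α → β ≤ 0 → ∀ Φ : ℝ → V → ℝ,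
    ContDiffOn ℝ ∞ (fun z : ℝ × V => Φ z.1 z.2) (Ioo α β ×ˢ univ) →
    (∀ t ∈ Ioo α β, ∀ z ∉ ball (0 : V) 1, Φ t z = 0) →
      ∀ t ∈ Ioo α β, (∀ z, 0 ≤ Φ t z) → ∀ P : V → ℝ,
        Slice2 (v t) (W t) (fun x i => deriv (fun s => W s x i) t) P (G t) →
          ∃ E' : ℝ, HasDerivAt (fun s => ∫ z, nsq (W s) z * Φ s z) E' t ∧
            E' ≤ -2 * (∫ z, gsq (W t) z * Φ t z)
              + (∫ z, nsq (W t) z * (deriv (fun s => Φ s z) t + lap (Φ t) z))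
              + (∫ z, nsq (W t) z * adv (v t) (Φ t) z) + 2 * (∫ z, P z * adv (W t) (Φ t) z)
              + C * (√(G t) * (∫ z, nsq (W t) z * Φ t z)
                + (√(G t) + G t) * ∫ z, √(nsq (W t) z) * Φ t z)

/-- The flux through the unit cut-off at one time. -/
def S_CUT2 : Prop := ∃ C : ℝ, 0 < C ∧ ∀ (v W N : V → V) (P : V → ℝ) (G : ℝ), Slice2 v W N P G →
  |∫ z, nsq W z * adv v (fun y => kap y ^ 2) z| + |∫ z, P z * adv W (fun y => kap y ^ 2) z|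
    ≤ C * G * √(∫ z, nsq W z * kap z ^ 2)

/-- The first step. -/
def S_BASE2 : Prop := ∃ C ε₀ : ℝ, 0 < C ∧ 0 < ε₀ ∧ ∀ ε : ℝ, 0 < ε → ε ≤ ε₀ →
  ∀ (v W : ℝ → V → V) (G : ℝ → ℝ), Hyp2 v W G ε →
    ∀ t ∈ Ioo (-9 / 16 : ℝ) 0, A2 0 (3 / 4) (W t) ≤ C * ε

/-- The test functions. -/
def S_TF2 : Prop := ∃ M c : ℝ, 1 ≤ M ∧ 0 < c ∧ ∀ (a : V) (s : ℝ) (n : ℕ), 5 ≤ n →
  ∃ φ : ℕ → ℝ → V → ℝ, TF2 M c a s n φ

/-- The pressure at small scales, tested with another field. -/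
def S_PK1b : Prop := ∀ C₀ : ℝ, 0 < C₀ → ∃ C : ℝ, 0 < C ∧ ∀ v W : V → V, ContDiff ℝ ∞ v →
  ContDiff ℝ ∞ W → ∀ (a : V) (Q : ℕ → V → ℝ), (∀ x ∈ ball a (1 / 4), dv W x = 0) →
    (∀ j, ContDiff ℝ ∞ (Q j) ∧ (∀ x ∈ ball a (rr j / 2), -lap (Q j) x = ddq v x) ∧
      ∫ x in ball a (rr j), Q j x ^ 2 ≤ C₀ * L4 a (rr j) v) →
    ∀ k : ℕ, 5 ≤ k → ∀ (M : ℝ) (φ : V → ℝ), 0 < M → ContDiff ℝ ∞ φ →
      (∀ z ∉ ball a (rr k), φ z = 0) → (∀ z i, |pd i φ z| ≤ M * 16 ^ k) →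
        |∫ z, Q 3 z * adv W φ z|
          ≤ C * (M * 16 ^ k * √(L4 a (rr (k - 2)) v) * √(A2 a (rr k) W)
            + (∑ j ∈ Finset.Ico 3 (k - 2), √(32 ^ j) * √(L4 a (rr j) v))
              * ∫ z, |φ z| * √(nsq W z))

/-- The flux through the test functions of the iteration at one time. -/
def S_PK2 : Prop := ∀ M : ℝ, 1 ≤ M → ∃ C : ℝ, 0 < C ∧
  ∀ (v W N : V → V) (P : V → ℝ) (G : ℝ), Slice2 v W N P G → ∀ a ∈ ball (0 : V) (3 / 8),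
    ∀ (K : Finset ℕ) (R : ℝ) (φ : ℕ → V → ℝ), 0 ≤ R → (∀ k ∈ K, 2 ≤ k ∧ 2 ^ k * R ≤ 2 ∧
      ContDiff ℝ ∞ (φ k) ∧ (∀ z ∉ ball a (rr k), φ k z = 0) ∧ (∀ z, |φ k z| ≤ M * 8 ^ k) ∧
      (∀ z, |φ k z| ≤ M * 8 ^ k * (2 ^ k * R)) ∧ (∀ z i, |pd i (φ k) z| ≤ M * 16 ^ k)) →
    (∀ z, 0 ≤ ∑ k ∈ K, φ k z) →
    (∀ z, |∑ k ∈ K.filter (fun k => 5 ≤ k), φ k z| ≤ ∑ k ∈ K, φ k z) →
    ∫ z, ∑ k ∈ K, φ k z ≤ M →
      |(∫ z, nsq W z * adv (fun y i => v y i - (v a i - W a i)) (fun y => ∑ k ∈ K, φ k y) z)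
        + 2 * ∫ z, P z * adv W (fun y => ∑ k ∈ K, φ k y) z|
        ≤ C * (G * √(A2 0 (3 / 4) W) + √G * A2 0 (3 / 4) W
          + G * √(∫ z, nsq W z * ∑ k ∈ K, φ k z)
          + ∑ k ∈ K.filter (fun k => 5 ≤ k), (√(A2 a (rr k) W) * PS a W k
            + √G * (8 ^ k * A2 a (rr k) W)
            + G * (√(A2 a (rr k) W) * (√(2 ^ k) + √(8 ^ k) * (2 ^ k * R)))))

/-- The additional sums over all scales. -/
def S_TSUMG : Prop := ∃ C : ℝ, 0 < C ∧ ∀ (Λ s ε : ℝ) (n : ℕ) (G : ℝ → ℝ), 0 ≤ Λ → 0 < ε →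
  (∀ t, 0 ≤ G t) → IntegrableOn G (Ioc (s - rr 2 ^ 2) s) →
  ∫ t in Ioc (s - rr 2 ^ 2) s, G t ≤ ε →
  IntegrableOn (fun t => ∑ k ∈ Finset.Icc 5 n, if s - rr k ^ 2 < t then
      √(G t) * Λ + G t * (√Λ * (√(2 ^ k) * √(1 / 8 ^ k) + 2 ^ k * √(rr n ^ 2 + (s - t)))) else 0)
    (Ioc (s - rr 2 ^ 2) s) ∧
  ∫ t in Ioc (s - rr 2 ^ 2) s, (∑ k ∈ Finset.Icc 5 n, if s - rr k ^ 2 < t then
      √(G t) * Λ + G t * (√Λ * (√(2 ^ k) * √(1 / 8 ^ k) + 2 ^ k * √(rr n ^ 2 + (s - t)))) else 0)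
    ≤ C * (Λ * √ε + √Λ * ε)

/-- The paths. -/
def S_PATH : Prop := ∃ ε₀ : ℝ, 0 < ε₀ ∧ ∀ (v W : ℝ → V → V) (G : ℝ → ℝ), Hyp2 v W G ε₀ →
  ∀ a ∈ ball (0 : V) (1 / 4), ∀ s ∈ Ioo (-1 / 16 : ℝ) 0, ∃ y, Path v W a s y

/-- Continuity in time of the quantities on moving balls. -/
def S_CTM : Prop := ∀ (α β ρ : ℝ) (W : ℝ → V → V) (y : ℝ → V),
  ContDiffOn ℝ ∞ (fun z : ℝ × V => W z.1 z.2) (Ioo α β ×ˢ univ) → ContinuousOn y (Ioo α β) →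
    ContinuousOn (fun t => A2 (y t) ρ (W t)) (Ioo α β) ∧
    ContinuousOn (fun t => B2 (y t) ρ (W t)) (Ioo α β)

/-- The induction step. -/
def S_STEP2 : Prop := ∃ C ε₀ : ℝ, 0 < C ∧ 0 < ε₀ ∧ ∀ ε : ℝ, 0 < ε → ε ≤ ε₀ →
  ∀ (v W : ℝ → V → V) (G : ℝ → ℝ), Hyp2 v W G ε → ∀ K₀ : ℝ, 0 ≤ K₀ →
    (∀ t ∈ Ioo (-9 / 16 : ℝ) 0, A2 0 (3 / 4) (W t) ≤ K₀ * ε) → ∀ Λ : ℝ, 0 ≤ Λ →
      ∀ (a : V) (y : ℝ → V), ∀ s ∈ Ioo (-1 / 16 : ℝ) 0, Path v W a s y → ∀ n : ℕ, 5 ≤ n →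
        (∀ k, 2 ≤ k → k ≤ n → IH2 Λ y s W k) →
          IH2 (C * ((1 + K₀) * ε + Λ * √Λ + Λ * √ε)) y s W (n + 1)

/-- The local regularity theorem for the decomposition. -/
def S_LOC2 : Prop := ∃ ε C : ℝ, 0 < ε ∧ 0 < C ∧ ∀ (v W : ℝ → V → V) (G : ℝ → ℝ),
  Hyp2 v W G ε → ∀ t ∈ Ioo (-1 / 16 : ℝ) 0, ∀ z ∈ ball (0 : V) (1 / 4), ∀ i, |W t z i| ≤ C

/-- The local regularity theorem: smallness of the gradient at one scale, no pressure. -/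
def S_LOCAL : Prop := ∃ ε C : ℝ, 0 < ε ∧ 0 < C ∧ ∀ (v : ℝ → V → V) (q : ℝ → V → ℝ), Loc2 v q →
  IntegrableOn (fun t => B2 0 8 (v t)) (Ioo (-1) 0) →
  ∫ t in Ioo (-1) 0, B2 0 8 (v t) ≤ ε → ∀ t ∈ Ioo (-1 / 16 : ℝ) 0, ∀ z ∈ ball (0 : V) (1 / 4),
    ∀ i, |v t z i| ≤ C * (1 + √(A2 0 4 (v t)))

/-! ### Counting -/

/-- A smooth field which solves the equations on the open set `O`. -/
structure LSol (T κ E : ℝ) (O : Set V) (u : ℝ → V → V) (p : ℝ → V → ℝ) : Prop where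
  openO : IsOpen O
  smooth_u : ContDiffOn ℝ ∞ (fun z : ℝ × V => u z.1 z.2) (Ioo 0 T ×ˢ univ)
  smooth_p : ContDiffOn ℝ ∞ (fun z : ℝ × V => p z.1 z.2) (Ioo 0 T ×ˢ univ)
  divfree : ∀ t ∈ Ioo 0 T, ∀ x ∈ O, dv (u t) x = 0
  momentum : ∀ t ∈ Ioo 0 T, ∀ x ∈ O, ∀ i,
    deriv (fun s => u s x i) t + adv (u t) (fun y => u t y i) x
      = lap (fun y => u t y i) x - pd i (p t) x
  en_int : ∀ t ∈ Ioo 0 T, Integrable (nsq (u t))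
  en : ∀ t ∈ Ioo 0 T, ∫ x, nsq (u t) x ≤ E ^ 2
  dv_int : ∀ t ∈ Ioo 0 T, Integrable (fun x => dv (u t) x ^ 2)
  dvb : ∀ t ∈ Ioo 0 T, ∫ x, dv (u t) x ^ 2 ≤ κ ^ 2

/-- A smooth vector field with uniform bounds. -/
structure Good2 (T M L κ : ℝ) (U : ℝ → V → V) : Prop where
  smooth : ContDiffOn ℝ ∞ (fun z : ℝ × V => U z.1 z.2) (Ioo 0 T ×ˢ univ)
  bd : ∀ t ∈ Ioo 0 T, ∀ x, ‖U t x‖ ≤ M
  lip : ∀ t ∈ Ioo 0 T, ∀ x i j, |pd j (fun y => U t y i) x| ≤ L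
  div : ∀ t ∈ Ioo 0 T, ∀ x, |dv (U t) x| ≤ κ

/-- Lagrangian coordinates, labelled by the final position. -/
structure Flow2 (U : ℝ → V → V) (α β : ℝ) (X : ℝ → V → V) : Prop where
  cont : ContinuousOn (fun z : ℝ × V => X z.1 z.2) (Icc α β ×ˢ univ)
  fin : ∀ x, X β x = x
  ode : ∀ x, ∀ t ∈ Ioo α β, HasDerivAt (fun τ => X τ x) (U t (X t x)) t
  smooth : ∀ x, ContDiffOn ℝ ∞ (fun τ => X τ x) (Ioo α β)

/-- The mollified velocity. -/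
def S_MOLL2 : Prop := ∃ C : ℝ, 0 < C ∧ ∀ (T κ E : ℝ) (O : Set V) (u : ℝ → V → V) (p : ℝ → V → ℝ),
  0 ≤ κ → 0 ≤ E → LSol T κ E O u p → ∀ r : ℝ, 0 < r →
    ∃ L : ℝ, Good2 T (C * E / √(r ^ 3)) L (C * κ / √(r ^ 3)) (mol r u)

/-- Existence of the flow. -/
def S_FLOWX2 : Prop := ∀ (T M L κ : ℝ) (U : ℝ → V → V), Good2 T M L κ U →
  ∀ α β : ℝ, 0 < α → α < β → β < T → ∃ X : ℝ → V → V, Flow2 U α β X

/-- Integrals under one Euler step. -/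
def S_EULER2 : Prop := ∀ L : ℝ, 0 ≤ L → ∃ C h₀ : ℝ, 0 < C ∧ 0 < h₀ ∧ ∀ (κ : ℝ) (U : V → V),
  ContDiff ℝ 1 U → (∀ x i j, |pd j (fun y => U y i) x| ≤ L) → (∀ x, |dv U x| ≤ κ) →
    ∀ h : ℝ, |h| ≤ h₀ → ∀ f : V → ℝ, Continuous f → HasCompactSupport f → (∀ x, 0 ≤ f x) →
      ∫ x, f (x + h • U x) ≤ Real.exp (|h| * κ + C * h ^ 2) * ∫ x, f x

/-- The flow changes volumes by a bounded factor. -/
def S_FLOWM2 : Prop := ∀ (T M L κ : ℝ) (U : ℝ → V → V), Good2 T M L κ U →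
  ∀ α β : ℝ, 0 < α → α < β → β < T → ∀ X : ℝ → V → V, Flow2 U α β X → ∀ t ∈ Icc α β,
    Measure.map (X t) volume ≤ ENNReal.ofReal (Real.exp (κ * (β - α))) • volume

/-- The equations in the moving frame. -/
def S_FRAME2 : Prop := ∀ (T κ E : ℝ) (O : Set V) (u : ℝ → V → V) (p : ℝ → V → ℝ),
  LSol T κ E O u p → ∀ r s : ℝ, 0 < r → r ^ 2 < s → s < T → ∀ X : ℝ → V,
    ContDiffOn ℝ ∞ X (Ioo (s - r ^ 2) s) →
    (∀ t ∈ Ioo (s - r ^ 2) s, HasDerivAt X (mol r u t (X t)) t) →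
    (∀ t ∈ Ioo (s - r ^ 2) s, ball (X t) (8 * r) ⊆ O) → Loc2 (frv r s X u) (frq r s X p)

/-- Tonelli along the flow. -/
def S_MARK2 : Prop := ∀ (T κ E : ℝ) (O : Set V) (u : ℝ → V → V) (p : ℝ → V → ℝ),
  LSol T κ E O u p → ∀ r s : ℝ, 0 < r → r ^ 2 < s → s < T → ∀ (X : ℝ → V → V) (c : ℝ≥0∞),
    ContinuousOn (fun z : ℝ × V => X z.1 z.2) (Icc (s - r ^ 2) s ×ˢ univ) →
    (∀ t ∈ Icc (s - r ^ 2) s, Measure.map (X t) volume ≤ c • volume) →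
      ∫⁻ x, ∫⁻ t in Ioo (-1 : ℝ) 0, ∫⁻ y in ball (X (s + r ^ 2 * t) x) (8 * r) ∩ O,
          ENNReal.ofReal (gsq (u (s + r ^ 2 * t)) y)
        ≤ c * ENNReal.ofReal (4096 * r) *
          ∫⁻ τ in Ioo (s - r ^ 2) s, ∫⁻ y in O, ENNReal.ofReal (gsq (u τ) y)

/-- The number of separated singular points. -/
def S_COUNT2 : Prop := ∃ C : ℝ, 0 < C ∧ ∀ (T κ E : ℝ) (O : Set V) (u : ℝ → V → V)
  (p : ℝ → V → ℝ), 0 ≤ κ → 0 ≤ E → LSol T κ E O u p → ∀ r : ℝ, 0 < r → 2 * r ^ 2 < T →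
    C * κ * √r ≤ 1 → ∀ S : Finset V, (∀ x ∈ S, Sing T u x) →
    (∀ x ∈ S, ball x (C * (r + E * √r)) ⊆ O) →
    (∀ x ∈ S, ∀ y ∈ S, x ≠ y → r / 4 ≤ ‖x - y‖) →
      ENNReal.ofReal (S.card * r) ≤ ENNReal.ofReal C *
        ∫⁻ τ in Ioo (T - 2 * r ^ 2) T, ∫⁻ y in O, ENNReal.ofReal (gsq (u τ) y)

/-! ### Application to periodic solutions -/

/-- A cut-off function: `1` on the closed ball of radius `3`, support the ball of radius `4`. -/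
noncomputable def zt : ContDiffBump (0 : V) := ⟨3, 4, by norm_num, by norm_num⟩

/-- A periodic solution, cut off, is a local solution. -/
def S_PERL : Prop := ∃ C : ℝ, 0 < C ∧ ∀ (T : ℝ) (u : ℝ → V → V) (p : ℝ → V → ℝ), 0 < T →
  IsSol 1 T u p → LSol T (C * √(energy (u 0))) (C * √(energy (u 0))) (ball 0 3)
    (fun t x => zt x • u t x) (fun t x => zt x * p t x)

/-- The dissipation of the cut-off field. -/
def S_PERE : Prop := ∀ u : V → V, SPV u →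
  ∫⁻ y in ball (0 : V) 3, ENNReal.ofReal (gsq (fun x => zt x • u x) y)
    ≤ ENNReal.ofReal (216 * enstrophy u)

end W221.NS
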