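import Pool.Agent.W221.NS.Fin2
import Pool.Agent.W333.MD.PCONT
import Pool.Agent.W335.MD.CT
import Pool.Agent.W440.MD.SOB
import Pool.Agent.W790.MD.L4
import Pool.Agent.W12.MD.POINC
import Pool.Agent.W395.MD.UNIT
import Pool.Agent.W12.MD.GROW
import Pool.Agent.W12.MD.RIESZ0
import Pool.Agent.W215.MD.Riesz
import Pool.Agent.W12.MD.HARM0
import Pool.Agent.W346.MD.HARM
import Pool.Agent.W346.MD.TSUM
import Pool.Agent.W125.MD.ENST
import Pool.Agent.W930.MD.Scale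
import Pool.Agent.W505.ME.GREEN
import Pool.Agent.W505.ME.DEC
import Pool.Agent.W505.ME.TSM
import Pool.Agent.W22.ME.TD
import Pool.Agent.W240.ME.DECT
import Pool.Agent.W327.ME.HYP
import Pool.Agent.W108.ME.WB
import Pool.Agent.W352.ME.EN2
import Pool.Agent.W356.ME.CUT2
import Pool.Agent.W356.ME.BASE2
import Pool.Agent.W356.ME.TF2
import Pool.Agent.W605.ME.PK1b
import Pool.Agent.W699.ME.PK2
import Pool.Agent.W930.ME.TSUMG
import Pool.Agent.W298.ME.PATH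
import Pool.Agent.W298.ME.CTM
import Pool.Agent.W372.ME.STEP2
import Pool.Agent.W19.ME.LOC2
import Pool.Agent.W19.ME.LOCAL
import Pool.Agent.W583.ME.MOLL2
import Pool.Agent.W398.ME.FLOWX2
import Pool.Agent.W654.ME.EULER2
import Pool.Agent.W460.ME.FLOWM2
import Pool.Agent.W298.ME.FRAME2
import Pool.Agent.W298.ME.MARK2
import Pool.Agent.W382.ME.COUNT2
import Pool.Agent.W975.ME.PERL
import Pool.Agent.W376.ME.PERE
import Pool.Agent.W22.MF.OSC
import Pool.Agent.W349.MF.OMEGA1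
import Pool.Agent.W349.MF.WHOLE1
import Pool.Agent.W919.MF.PERI1
import Pool.Agent.W591.MF.MINK

/-!
Assembly of the second and third stage.
-/

open MeasureTheory Set Metric
open scoped ContDiff

namespace W221.NS.B

open H459R3.NS

theorem p_pcont : S_PCONT := Pool.Agent.W333.MD.t_PCONT
theorem p_ct : S_CT := W335.MD.t_CT p_pcont
theorem p_sob : S_SOB := Pool.Agent.W440.MD.t_SOB
theorem p_l4 : S_L4 := Pool.Agent.W790.MD.t_L4 p_sob
theorem p_poinc : S_POINC := Pool.Agent.W12.MD.t_POINC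
theorem p_unit : S_UNIT := Pool.Agent.W395.MD.t_UNIT p_poinc p_sob
theorem p_grow : S_GROW := Pool.Agent.W12.MD.t_GROW p_poinc p_sob
theorem p_riesz0 : S_RIESZ0 := Pool.Agent.W12.MD.R0.t_RIESZ0
theorem p_riesz : S_RIESZ := Pool.Agent.W215.MD.t_RIESZ p_riesz0
theorem p_harm0 : S_HARM0 := Pool.Agent.W12.MD.t_HARM0
theorem p_harm : S_HARM := Pool.Agent.W346.MD.t_HARM p_harm0
theorem p_tsum : S_TSUM := Pool.Agent.W346.MD.t_TSUM
theorem p_enst : S_ENST := Pool.Agent.W125.MD.t_ENST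
theorem p_scale : S_SCALE := Pool.Agent.W930.MD.t_SCALE
theorem p_green : S_GREEN := Pool.Agent.W505.ME.G.t_GREEN
theorem p_dec : S_DEC := Pool.Agent.W505.ME.DEC.t_DEC p_harm
theorem p_td : S_TD := Pool.Agent.W22.ME.TD.t_TD p_harm
theorem p_dect : S_DECT := Pool.Agent.W240.ME.t_DECT p_td p_harm
theorem p_tsm : S_TSM := Pool.Agent.W505.ME.TSM.t_TSM
theorem p_hyp : S_HYP := Pool.Agent.W327.ME.t_HYP p_tsm p_dec p_dect p_grow
theorem p_wb : S_WB := Pool.Agent.W108.ME.t_WB p_poinc p_unit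
theorem p_en2 : S_EN2 := Pool.Agent.W352.ME.t_EN2
theorem p_cut2 : S_CUT2 := W356.ME.t_CUT2 p_wb
theorem p_base2 : S_BASE2 := W356.ME.t_BASE2 p_en2 p_cut2 p_wb p_ct
theorem p_tf2 : S_TF2 := W356.ME.t_TF2
theorem p_pk1b : S_PK1b := W605.ME.PK1b.t_PK1b p_harm
theorem p_pk2 : S_PK2 := Pool.Agent.W699.ME.t_PK2 p_riesz p_harm p_wb p_pk1b
theorem p_tsumg : S_TSUMG := Pool.Agent.W930.ME.t_TSUMG
theorem p_path : S_PATH := Pool.Agent.W298.ME.PATH.t_PATH
theorem p_ctm : S_CTM := Pool.Agent.W298.ME.CTM.t_CTM p_pcont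
theorem p_step2 : S_STEP2 := W372.ME.t_STEP2 p_tf2 p_en2 p_pk2 p_l4 p_tsum p_tsumg p_ct p_ctm
theorem p_loc2 : S_LOC2 := Pool.Agent.W19.ME.t_LOC2 p_base2 p_step2 p_path p_wb p_ctm
theorem p_local : S_LOCAL := Pool.Agent.W19.ME.t_LOCAL p_green p_hyp p_loc2 p_dec
theorem p_moll2 : S_MOLL2 := Pool.Agent.W583.ME.t_MOLL2
theorem p_flowx2 : S_FLOWX2 := W398.ME.FLOWX2.t_FLOWX2
theorem p_euler2 : S_EULER2 := Pool.Agent.W654.ME.t_EULER2
theorem p_flowm2 : S_FLOWM2 := Pool.Agent.W460.ME.t_FLOWM2 p_euler2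
theorem p_frame2 : S_FRAME2 := Pool.Agent.W298.ME.FRAME2.t_FRAME2
theorem p_mark2 : S_MARK2 := Pool.Agent.W298.ME.MARK2.t_MARK2
theorem p_count2 : S_COUNT2 :=
  W382.ME.t_COUNT2 p_local p_moll2 p_flowx2 p_flowm2 p_frame2 p_mark2
theorem p_perl : S_PERL := Pool.Agent.W975.ME.t_PERL
theorem p_pere : S_PERE := Pool.Agent.W376.ME.t_PERE
theorem p_osc : S_OSC := Pool.Agent.W22.MF.t_OSC
theorem p_omega1 : S_OMEGA1 := Pool.Agent.W349.MF.t_OMEGA1 p_count2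
theorem p_whole1 : S_WHOLE1 := Pool.Agent.W349.MF.t_WHOLE1 p_count2
theorem p_peri1 : S_PERI1 := W919.MF.t_PERI1 p_count2 p_perl p_pere p_enst
theorem p_mink : S_MINK := Pool.Agent.W591.MF.t_MINK

end W221.NS.B
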