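import Pool.Agent.W221.NS.Asm2
import Pool.Agent.W221.NS.Fin4
import Pool.Agent.W639.MH.SUP
import Pool.Agent.W412.MH.SUPT
import Pool.Agent.W917.MH.TLIN
import Pool.Agent.W878.MH.HYP3
import Pool.Agent.W496.MH.LOCAL3
import Pool.Agent.W342.MH.FRAME3
import Pool.Agent.W919.MH.MARK3
import Pool.Agent.W108.MH.COUNT3
import Pool.Agent.W436.MH.OMEGA3
import Pool.Agent.W52.MH.WHOLE3
import Pool.Agent.W589.MH.OSC3
import Pool.Agent.W369.MH.PEN3
import Pool.Agent.W52.MH.PERO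

/-!
Assembly of the fourth stage.
-/

open MeasureTheory Set Metric
open scoped ContDiff

namespace W221.NS.B

open H459R3.NS

theorem p_sup : S_SUP := Pool.Agent.W639.MH.t_SUP
theorem p_supt : S_SUPT := Pool.Agent.W412.MH.SUPT.t_SUPT p_sup
theorem p_tlin : S_TLIN := Pool.Agent.W917.MH.t_TLIN
theorem p_hyp3 : S_HYP3 := Pool.Agent.W878.MH.t_HYP3 p_tsm p_dec p_dect p_grow p_supt p_tlin
theorem p_local3 : S_LOCAL3 := Pool.Agent.W496.MH.t_LOCAL3 p_green p_hyp3 p_loc2 p_dec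
theorem p_frame3 : S_FRAME3 := Pool.Agent.W342.MH.FRAME3.t_FRAME3
theorem p_mark3 : S_MARK3 := W919.MH.MARK3.t_MARK3
theorem p_count3 : S_COUNT3 :=
  Pool.Agent.W108.MH.t_COUNT3 p_local3 p_moll2 p_flowx2 p_flowm2 p_frame3 p_mark3
theorem p_omega3 : S_OMEGA3 := Pool.Agent.W436.MH.t_OMEGA3 p_count3
theorem p_whole3 : S_WHOLE3 := Pool.Agent.W52.MH.t_WHOLE3 p_count3
theorem p_osc3 : S_OSC3 := Pool.Agent.W589.MH.t_OSC3
theorem p_pen3 : S_PEN3 := Pool.Agent.W369.MH.t_PEN3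
theorem p_pero : S_PERO := Pool.Agent.W52.MH.t_PERO

end W221.NS.B
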