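import Pool.Agent.W221.NS.Stm

/-!
The final step: from dyadic radii and viscosity one to the general case, covering numbers.
-/

open MeasureTheory Set Metric Filter Topology
open scoped ContDiff

namespace W221.NS

open H459R3.NS

theorem enstrophy_nonneg (v : V → V) : 0 ≤ enstrophy v := by
  unfold enstrophy
  exact Finset.sum_nonneg fun i _ => Finset.sum_nonneg fun j _ =>
    integral_nonneg fun x => sq_nonneg _

theorem enstrophy_smul (c : ℝ) (v : V → V) : enstrophy (fun x => c • v x) = c ^ 2 * enstrophy v := by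
  unfold enstrophy
  rw [Finset.mul_sum]
  refine Finset.sum_congr rfl fun i _ => ?_
  rw [Finset.mul_sum]
  refine Finset.sum_congr rfl fun j _ => ?_
  rw [← integral_const_mul]
  refine integral_congr_ae (Eventually.of_forall fun x => ?_)
  have : pd j (fun y => (c • v y) i) x = c * pd j (fun y => v y i) x := by
    unfold pd
    have : (fun y => (c • v y) i) = c • fun y => v y i := by
      funext y; simp
    rw [this, fderiv_const_smul_field]
    simp
  simp only [this]
  ring

/-- The counting bound for viscosity one and all radii. -/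
theorem count_one (h1 : S_COUNT) (h3 : S_ENST) : ∃ C : ℝ, 0 < C ∧
    ∀ (T : ℝ) (u : ℝ → V → V) (p : ℝ → V → ℝ), 0 < T → IsSol 1 T u p →
      ∀ r : ℝ, 0 < r → r < 1 / 32 → 32 * r ^ 2 < T → ∀ S : Finset V, (∀ x ∈ S, Sing T u x) →
        (∀ x ∈ S, ∀ y ∈ S, x ≠ y → ∀ k : K3, r ≤ ‖x - y - fun i => (k i : ℝ)‖) →
          S.card * r ≤ C * Real.log (1 / r) * ∫ t in Ioo (T - 32 * r ^ 2) T, enstrophy (u t) := by
  obtain ⟨C, hC, H⟩ := h1
  refine ⟨C / Real.log 2, div_pos hC (Real.log_pos (by norm_num)), ?_⟩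
  intro T u p hT hu r hr0 hr1 hrT S hS hsep
  -- the dyadic radius
  have hex : ∃ m : ℕ, rr m ≤ 4 * r := by
    obtain ⟨m, hm⟩ := exists_pow_lt_of_lt_one (show (0 : ℝ) < 4 * r by positivity)
      (show (1 / 2 : ℝ) < 1 by norm_num)
    exact ⟨m, hm.le⟩
  classical
  let m := Nat.find hex
  have hm : rr m ≤ 4 * r := Nat.find_spec hex
  have hm4 : 4 ≤ m := by
    by_contra hlt
    have hle : m ≤ 3 := by omega
    have : rr 3 ≤ rr m := pow_le_pow_of_le_one (by norm_num) (by norm_num) hle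
    have h3 : rr 3 = 1 / 8 := by norm_num [rr]
    linarith
  have hm1 : 4 * r < rr (m - 1) := by
    have := Nat.find_min hex (show m - 1 < m by omega)
    exact not_le.1 this
  have hrm : rr (m - 1) = 2 * rr m := by
    obtain ⟨k, hk⟩ : ∃ k, m = k + 1 := ⟨m - 1, by omega⟩
    rw [hk]
    simp only [rr, Nat.add_sub_cancel, pow_succ]
    ring
  have hlow : 2 * r < rr m := by linarith
  have hrpos : 0 < rr m := by unfold rr; positivity
  have hsq : rr m ^ 2 ≤ 16 * r ^ 2 := by nlinarith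
  have key := H T u p hT hu m hm4 (by linarith) S hS (fun x hx y hy hxy k =>
    le_trans (by linarith) (hsep x hx y hy hxy k))
  have hint : IntegrableOn (fun t => enstrophy (u t)) (Ioo 0 T) := h3 1 T u p one_pos hT hu
  have hmono : ∫ t in Ioo (T - 2 * rr m ^ 2) T, enstrophy (u t)
      ≤ ∫ t in Ioo (T - 32 * r ^ 2) T, enstrophy (u t) := by
    refine setIntegral_mono_set (hint.mono_set ?_) (Eventually.of_forall fun t =>
      enstrophy_nonneg _) (Eventually.of_forall ?_)
    · intro t ht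
      exact ⟨by linarith [ht.1], ht.2⟩
    · intro t ht
      exact ⟨by linarith [ht.1], ht.2⟩
  have hI0 : 0 ≤ ∫ t in Ioo (T - 32 * r ^ 2) T, enstrophy (u t) :=
    integral_nonneg fun t => enstrophy_nonneg _
  have hlogm : (m + 1 : ℝ) * Real.log 2 ≤ Real.log (1 / r) := by
    have : (2 : ℝ) ^ (m + 1) ≤ 1 / r := by
      rw [le_div_iff₀ hr0]
      have h2 : rr m * 2 ^ m = 1 := by
        unfold rr
        rw [← mul_pow]
        norm_num
      have : (2 : ℝ) ^ (m + 1) * r = 2 ^ m * (2 * r) := by ring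
      rw [this]
      calc (2 : ℝ) ^ m * (2 * r) ≤ 2 ^ m * rr m := by
            apply mul_le_mul_of_nonneg_left hlow.le (by positivity)
        _ = 1 := by rw [mul_comm]; exact h2
    have h4 := Real.log_le_log (by positivity) this
    rw [Real.log_pow] at h4
    exact_mod_cast h4
  have hl2 : 0 < Real.log 2 := Real.log_pos (by norm_num)
  have hcard : (S.card : ℝ) * r ≤ S.card * rr m := by
    apply mul_le_mul_of_nonneg_left _ (by positivity)
    linarith
  calc (S.card : ℝ) * r ≤ S.card * rr m := hcard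
    _ ≤ C * (m + 1) * ∫ t in Ioo (T - 2 * rr m ^ 2) T, enstrophy (u t) := key
    _ ≤ C * (m + 1) * ∫ t in Ioo (T - 32 * r ^ 2) T, enstrophy (u t) := by
        apply mul_le_mul_of_nonneg_left hmono (by positivity)
    _ ≤ C / Real.log 2 * Real.log (1 / r) * ∫ t in Ioo (T - 32 * r ^ 2) T, enstrophy (u t) := by
        apply mul_le_mul_of_nonneg_right _ hI0
        rw [div_mul_eq_mul_div, le_div_iff₀ hl2, mul_assoc]
        exact mul_le_mul_of_nonneg_left hlogm hC.le

theorem sing_scale {ν T : ℝ} (hν : 0 < ν) {u : ℝ → V → V} {x : V} (h : Sing T u x) :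
    Sing (ν * T) (fun t x => ν⁻¹ • u (t / ν) x) x := by
  intro δ hδ B
  have hδ' : 0 < min δ (δ / ν) := lt_min hδ (div_pos hδ hν)
  obtain ⟨t, ht, y, hy, hB⟩ := h (min δ (δ / ν)) hδ' (ν * B)
  refine ⟨ν * t, ⟨?_, ?_⟩, y, ball_subset_ball (min_le_left _ _) hy, ?_⟩
  · have h1 : T - δ / ν < t := lt_of_le_of_lt (by linarith [min_le_right δ (δ / ν)]) ht.1
    have : ν * (T - δ / ν) < ν * t := mul_lt_mul_of_pos_left h1 hν
    have h2 : ν * (T - δ / ν) = ν * T - δ := by field_simp
    linarith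
  · exact mul_lt_mul_of_pos_left ht.2 hν
  · simp only [mul_div_cancel_left₀ t hν.ne']
    rw [norm_smul, norm_inv, Real.norm_of_nonneg hν.le]
    rw [lt_inv_mul_iff₀ hν]
    exact hB

/-- The counting bound. -/
theorem count_all (h1 : S_COUNT) (h2 : S_SCALE) (h3 : S_ENST) : ∃ C : ℝ, 0 < C ∧
    ∀ (ν T : ℝ) (u : ℝ → V → V) (p : ℝ → V → ℝ), 0 < ν → 0 < T → IsSol ν T u p →
      ∀ r : ℝ, 0 < r → r < 1 / 32 → 32 * r ^ 2 / ν < T → ∀ S : Finset V, (∀ x ∈ S, Sing T u x) →
        (∀ x ∈ S, ∀ y ∈ S, x ≠ y → ∀ k : K3, r ≤ ‖x - y - fun i => (k i : ℝ)‖) →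
          S.card * r ≤ C * Real.log (1 / r) *
            (ν⁻¹ * ∫ t in Ioo (T - 32 * r ^ 2 / ν) T, enstrophy (u t)) := by
  obtain ⟨C, hC, H⟩ := count_one h1 h3
  refine ⟨C, hC, ?_⟩
  intro ν T u p hν hT hu r hr0 hr1 hrT S hS hsep
  have hT' : 0 < ν * T := mul_pos hν hT
  have key := H (ν * T) _ _ hT' (h2 ν T u p hν hT hu) r hr0 hr1
    (by rw [div_lt_iff₀ hν] at hrT; linarith) S (fun x hx => sing_scale hν (hS x hx)) hsep
  have e : ∫ t in Ioo (ν * T - 32 * r ^ 2) (ν * T), enstrophy (fun x => ν⁻¹ • u (t / ν) x)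
      = ν⁻¹ * ∫ t in Ioo (T - 32 * r ^ 2 / ν) T, enstrophy (u t) := by
    simp only [enstrophy_smul]
    rw [← integral_const_mul, ← integral_Ioc_eq_integral_Ioo, ← integral_Ioc_eq_integral_Ioo,
      ← intervalIntegral.integral_of_le (by nlinarith [sq_nonneg r]),
      ← intervalIntegral.integral_of_le (by
        have : 0 ≤ 32 * r ^ 2 / ν := by positivity
        linarith)]
    have := intervalIntegral.integral_comp_div (a := ν * T - 32 * r ^ 2) (b := ν * T)
      (fun t => ν⁻¹ ^ 2 * enstrophy (u t)) hν.ne'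
    rw [this]
    have ea : (ν * T - 32 * r ^ 2) / ν = T - 32 * r ^ 2 / ν := by field_simp
    have eb : ν * T / ν = T := by field_simp
    rw [ea, eb, smul_eq_mul, intervalIntegral.integral_const_mul,
      intervalIntegral.integral_const_mul]
    field_simp
  rw [e] at key
  exact key

/-- From separated sets to coverings. -/
theorem cover_of_sep {Z : Set V} {r N : ℝ} (hr : 0 < r)
    (h : ∀ S : Finset V, (∀ x ∈ S, x ∈ Z) →
      (∀ x ∈ S, ∀ y ∈ S, x ≠ y → ∀ k : K3, r ≤ ‖x - y - fun i => (k i : ℝ)‖) →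
      (S.card : ℝ) ≤ N) :
    ∃ F : Finset V, (F.card : ℝ) ≤ N ∧ (∀ x ∈ F, x ∈ Z) ∧ ∀ x ∈ Z, ∃ y ∈ F, ∃ k : K3,
      ‖x - y - fun i => (k i : ℝ)‖ < r := by
  classical
  let P : ℕ → Prop := fun n => ∃ S : Finset V, S.card = n ∧ (∀ x ∈ S, x ∈ Z) ∧
    (∀ x ∈ S, ∀ y ∈ S, x ≠ y → ∀ k : K3, r ≤ ‖x - y - fun i => (k i : ℝ)‖)
  have hP0 : P 0 := ⟨∅, rfl, by simp, by simp⟩
  have hb : ∀ n, P n → n ≤ ⌊N⌋₊ := by
    rintro n ⟨S, rfl, h1, h2⟩
    exact Nat.le_floor (h S h1 h2)
  obtain ⟨S, hcard, h1, h2⟩ := Nat.findGreatest_spec (P := P) (Nat.zero_le ⌊N⌋₊) hP0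
  refine ⟨S, h S h1 h2, h1, fun x hx => ?_⟩
  by_contra hcon
  push Not at hcon
  have hxS : x ∉ S := fun hxS => by
    have := hcon x hxS 0
    have e : x - x - (fun i => (((0 : K3) i : ℤ) : ℝ)) = 0 := by
      funext i
      simp
    rw [e, norm_zero] at this
    linarith
  have hnew : P (S.card + 1) := by
    refine ⟨insert x S, Finset.card_insert_of_notMem hxS, ?_, ?_⟩
    · intro y hy
      rcases Finset.mem_insert.1 hy with rfl | hy
      · exact hx
      · exact h1 y hy
    · intro y hy z hz hyz k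
      rcases Finset.mem_insert.1 hy with hy' | hy'
      · rcases Finset.mem_insert.1 hz with hz' | hz'
        · exact absurd (hy'.trans hz'.symm) hyz
        · rw [hy']
          exact hcon z hz' k
      · rcases Finset.mem_insert.1 hz with hz' | hz'
        · rw [hz']
          have := hcon y hy' (-k)
          have e : y - x - (fun i => (k i : ℝ)) = -(x - y - fun i => (((-k) i : ℤ) : ℝ)) := by
            funext i
            simp
            ring
          rw [e, norm_neg]
          exact this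
        · exact h2 y hy' z hz' hyz k
  have := hb _ hnew
  have h3 := Nat.le_findGreatest (P := P) this hnew
  rw [← hcard] at h3
  omega

end W221.NS
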