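import Pool.Agent.W221.NS.Stm2

/-!
Third stage (helper221): final statements.
-/

open MeasureTheory Set Metric Filter Topology
open scoped ContDiff ENNReal

namespace W221.NS

open H459R3.NS

/-- `(u, p)` is a smooth solution of the Navier-Stokes equations with viscosity `ν` and without
force on `(0, T) × Ω`, with `∫ |u|² ≤ E²` over `Ω` at all times. -/
structure OSol (ν T E : ℝ) (Ω : Set V) (u : ℝ → V → V) (p : ℝ → V → ℝ) : Prop where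
  openO : IsOpen Ω
  smooth_u : ContDiffOn ℝ ∞ (fun z : ℝ × V => u z.1 z.2) (Ioo 0 T ×ˢ Ω)
  smooth_p : ContDiffOn ℝ ∞ (fun z : ℝ × V => p z.1 z.2) (Ioo 0 T ×ˢ Ω)
  divfree : ∀ t ∈ Ioo 0 T, ∀ x ∈ Ω, ∑ i, pd i (fun y => u t y i) x = 0
  momentum : ∀ t ∈ Ioo 0 T, ∀ x ∈ Ω, ∀ i,
    deriv (fun s => u s x i) t + ∑ j, u t x j * pd j (fun y => u t y i) x
      = ν * ∑ j, pd j (pd j (fun y => u t y i)) x - pd i (p t) x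
  en_int : ∀ t ∈ Ioo 0 T, IntegrableOn (nsq (u t)) Ω
  en : ∀ t ∈ Ioo 0 T, ∫ x in Ω, nsq (u t) x ≤ E ^ 2

/-- Scaling to viscosity one. -/
def S_OSC : Prop := ∀ (ν T E : ℝ) (Ω : Set V) (u : ℝ → V → V) (p : ℝ → V → ℝ), 0 < ν →
  OSol ν T E Ω u p → OSol 1 (ν * T) (E / ν) Ω (fun t x => ν⁻¹ • u (t / ν) x)
    (fun t x => (ν ^ 2)⁻¹ * p (t / ν) x)

/-- Separated singular points in a compact subset of a domain. -/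
def S_OMEGA1 : Prop := ∃ C : ℝ, 0 < C ∧ ∀ (T E : ℝ) (Ω : Set V) (u : ℝ → V → V) (p : ℝ → V → ℝ),
  0 < T → 0 ≤ E → OSol 1 T E Ω u p → ∀ K : Set V, IsCompact K → K ⊆ Ω → ∃ r₀ : ℝ, 0 < r₀ ∧
    ∀ r : ℝ, 0 < r → r < r₀ → ∀ S : Finset V, (∀ x ∈ S, x ∈ K ∧ Sing T u x) →
      (∀ x ∈ S, ∀ y ∈ S, x ≠ y → r ≤ ‖x - y‖) →
        ENNReal.ofReal (S.card * r) ≤ ENNReal.ofReal C *
          ∫⁻ τ in Ioo (T - 32 * r ^ 2) T, ∫⁻ y in Ω, ENNReal.ofReal (gsq (u τ) y)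

/-- Separated singular points in the whole space. -/
def S_WHOLE1 : Prop := ∃ C : ℝ, 0 < C ∧ ∀ (T E : ℝ) (u : ℝ → V → V) (p : ℝ → V → ℝ),
  0 < T → 0 ≤ E → OSol 1 T E univ u p → ∀ r : ℝ, 0 < r → 32 * r ^ 2 < T → ∀ S : Finset V,
    (∀ x ∈ S, Sing T u x) → (∀ x ∈ S, ∀ y ∈ S, x ≠ y → r ≤ ‖x - y‖) →
      ENNReal.ofReal (S.card * r) ≤ ENNReal.ofReal C *
        ∫⁻ τ in Ioo (T - 32 * r ^ 2) T, ∫⁻ y, ENNReal.ofReal (gsq (u τ) y)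

/-- Separated singular points of periodic solutions. -/
def S_PERI1 : Prop := ∃ C : ℝ, 0 < C ∧ ∀ (T : ℝ) (u : ℝ → V → V) (p : ℝ → V → ℝ),
  0 < T → IsSol 1 T u p → ∀ r : ℝ, 0 < r → C * (1 + energy (u 0)) * r ≤ 1 → 32 * r ^ 2 < T →
    ∀ S : Finset V, (∀ x ∈ S, x ∈ cube ∧ Sing T u x) →
      (∀ x ∈ S, ∀ y ∈ S, x ≠ y → r ≤ ‖x - y‖) →
        S.card * r ≤ C * ∫ t in Ioo (T - 32 * r ^ 2) T, enstrophy (u t)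

/-- Separated sets and Minkowski content. -/
def S_MINK : Prop := ∀ Z : Set V,
  (∀ ε : ℝ, 0 < ε → ∃ r₀ : ℝ, 0 < r₀ ∧ ∀ r : ℝ, 0 < r → r < r₀ → ∀ S : Finset V,
    (∀ x ∈ S, x ∈ Z) → (∀ x ∈ S, ∀ y ∈ S, x ≠ y → r ≤ ‖x - y‖) → S.card * r ≤ ε) →
  Tendsto (fun r : ℝ => volume (thickening r Z) / ENNReal.ofReal (r ^ 2)) (𝓝[>] 0) (𝓝 0)

end W221.NS
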