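import Pool.Agent.W221.NS.Fin
import Pool.Agent.W221.NS.Stm3

/-!
The final step of the second stage: all viscosities, Minkowski content.
-/

open MeasureTheory Set Metric Filter Topology
open scoped ContDiff ENNReal

namespace W221.NS

open H459R3.NS

theorem gsq_nonneg (v : V → V) (x : V) : 0 ≤ gsq v x :=
  Finset.sum_nonneg fun _ _ => Finset.sum_nonneg fun _ _ => sq_nonneg _

theorem gsq_smul (c : ℝ) (v : V → V) (x : V) : gsq (fun x => c • v x) x = c ^ 2 * gsq v x := by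
  unfold gsq
  rw [Finset.mul_sum]
  refine Finset.sum_congr rfl fun i _ => ?_
  rw [Finset.mul_sum]
  refine Finset.sum_congr rfl fun j _ => ?_
  have : pd j (fun y => (c • v y) i) x = c * pd j (fun y => v y i) x := by
    unfold pd
    have : (fun y => (c • v y) i) = c • fun y => v y i := by
      funext y; simp
    rw [this, fderiv_const_smul_field]
    simp
  rw [this]
  ring

theorem energy_smul (c : ℝ) (v : V → V) : energy (fun x => c • v x) = c ^ 2 * energy v := by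
  unfold energy
  rw [Finset.mul_sum]
  refine Finset.sum_congr rfl fun i _ => ?_
  rw [← integral_const_mul]
  refine integral_congr_ae (Eventually.of_forall fun x => ?_)
  simp
  ring

/-- Time scaling of the lower integral. -/
theorem lint_scale {ν : ℝ} (hν : 0 < ν) (f : ℝ → ℝ≥0∞) (a b : ℝ) :
    ∫⁻ t in Ioo (ν * a) (ν * b), f (t / ν) = ENNReal.ofReal ν * ∫⁻ t in Ioo a b, f t := by
  have h1 : ∫⁻ t in Ioo (ν * a) (ν * b), f (t / ν)
      = ∫⁻ t, (Ioo a b).indicator f (ν⁻¹ * t) := by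
    rw [← lintegral_indicator measurableSet_Ioo]
    refine lintegral_congr fun t => ?_
    have e : ν⁻¹ * t = t / ν := by field_simp
    rw [e]
    have hiff : t ∈ Ioo (ν * a) (ν * b) ↔ t / ν ∈ Ioo a b := by
      simp only [mem_Ioo, lt_div_iff₀ hν, div_lt_iff₀ hν, mul_comm ν]
    by_cases h : t ∈ Ioo (ν * a) (ν * b)
    · rw [indicator_of_mem h, indicator_of_mem (hiff.1 h)]
    · rw [indicator_of_notMem h, indicator_of_notMem (fun h' => h (hiff.2 h'))]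
  rw [h1]
  have h2 : ∫⁻ t, (Ioo a b).indicator f (ν⁻¹ * t)
      = ∫⁻ t, (Ioo a b).indicator f t ∂(Measure.map (fun t => ν⁻¹ * t) volume) :=
    ((Homeomorph.mulLeft₀ ν⁻¹ (inv_ne_zero hν.ne')).toMeasurableEquiv.measurableEmbedding.lintegral_map
      _).symm
  rw [h2, Real.map_volume_mul_left (inv_ne_zero hν.ne'), lintegral_smul_measure,
    lintegral_indicator measurableSet_Ioo, inv_inv, abs_of_pos hν, smul_eq_mul]

/-- Whole space, all viscosities. -/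
theorem whole_all (h1 : S_WHOLE1) (h2 : S_OSC) : ∃ C : ℝ, 0 < C ∧
    ∀ (ν T E : ℝ) (u : ℝ → V → V) (p : ℝ → V → ℝ), 0 < ν → 0 < T → 0 ≤ E →
      OSol ν T E univ u p → ∀ r : ℝ, 0 < r → 32 * r ^ 2 / ν < T → ∀ S : Finset V,
        (∀ x ∈ S, Sing T u x) → (∀ x ∈ S, ∀ y ∈ S, x ≠ y → r ≤ ‖x - y‖) →
          ENNReal.ofReal (S.card * r) ≤ ENNReal.ofReal (C / ν) *
            ∫⁻ τ in Ioo (T - 32 * r ^ 2 / ν) T, ∫⁻ y, ENNReal.ofReal (gsq (u τ) y) := by
  obtain ⟨C, hC, H⟩ := h1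
  refine ⟨C, hC, ?_⟩
  intro ν T E u p hν hT hE hu r hr hrT S hS hsep
  have key := H (ν * T) (E / ν) _ _ (mul_pos hν hT) (div_nonneg hE hν.le)
    (h2 ν T E univ u p hν hu) r hr (by rw [div_lt_iff₀ hν] at hrT; linarith) S
    (fun x hx => sing_scale hν (hS x hx)) hsep
  have e : ∫⁻ τ in Ioo (ν * T - 32 * r ^ 2) (ν * T),
        ∫⁻ y, ENNReal.ofReal (gsq (fun x => ν⁻¹ • u (τ / ν) x) y)
      = ENNReal.ofReal ν⁻¹ *
        ∫⁻ τ in Ioo (T - 32 * r ^ 2 / ν) T, ∫⁻ y, ENNReal.ofReal (gsq (u τ) y) := by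
    have e1 : ∀ τ, ∫⁻ y, ENNReal.ofReal (gsq (fun x => ν⁻¹ • u (τ / ν) x) y)
        = ENNReal.ofReal (ν⁻¹ ^ 2) * ∫⁻ y, ENNReal.ofReal (gsq (u (τ / ν)) y) := by
      intro τ
      rw [← lintegral_const_mul' _ _ ENNReal.ofReal_ne_top]
      refine lintegral_congr fun y => ?_
      rw [gsq_smul, ENNReal.ofReal_mul (by positivity)]
    simp only [e1]
    rw [lintegral_const_mul' _ _ ENNReal.ofReal_ne_top]
    have ea : ν * T - 32 * r ^ 2 = ν * (T - 32 * r ^ 2 / ν) := by field_simp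
    rw [ea, lint_scale hν (fun τ => ∫⁻ y, ENNReal.ofReal (gsq (u τ) y)), ← mul_assoc,
      ← ENNReal.ofReal_mul (by positivity)]
    congr 2
    field_simp
  rw [e, ← mul_assoc, ← ENNReal.ofReal_mul hC.le, ← div_eq_mul_inv] at key
  exact key

/-- Domains, all viscosities. -/
theorem omega_all (h1 : S_OMEGA1) (h2 : S_OSC) : ∃ C : ℝ, 0 < C ∧
    ∀ (ν T E : ℝ) (Ω : Set V) (u : ℝ → V → V) (p : ℝ → V → ℝ), 0 < ν → 0 < T → 0 ≤ E →
      OSol ν T E Ω u p → ∀ K : Set V, IsCompact K → K ⊆ Ω → ∃ r₀ : ℝ, 0 < r₀ ∧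
        ∀ r : ℝ, 0 < r → r < r₀ → ∀ S : Finset V,
        (∀ x ∈ S, x ∈ K ∧ Sing T u x) → (∀ x ∈ S, ∀ y ∈ S, x ≠ y → r ≤ ‖x - y‖) →
          ENNReal.ofReal (S.card * r) ≤ ENNReal.ofReal (C / ν) *
            ∫⁻ τ in Ioo (T - 32 * r ^ 2 / ν) T, ∫⁻ y in Ω, ENNReal.ofReal (gsq (u τ) y) := by
  obtain ⟨C, hC, H⟩ := h1
  refine ⟨C, hC, ?_⟩
  intro ν T E Ω u p hν hT hE hu K hK hKΩ
  obtain ⟨r₀, hr₀, H'⟩ := H (ν * T) (E / ν) Ω _ _ (mul_pos hν hT) (div_nonneg hE hν.le)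
    (h2 ν T E Ω u p hν hu) K hK hKΩ
  refine ⟨r₀, hr₀, ?_⟩
  intro r hr hrr S hS hsep
  have key := H' r hr hrr S (fun x hx => ⟨(hS x hx).1, sing_scale hν (hS x hx).2⟩) hsep
  have e : ∫⁻ τ in Ioo (ν * T - 32 * r ^ 2) (ν * T),
        ∫⁻ y in Ω, ENNReal.ofReal (gsq (fun x => ν⁻¹ • u (τ / ν) x) y)
      = ENNReal.ofReal ν⁻¹ *
        ∫⁻ τ in Ioo (T - 32 * r ^ 2 / ν) T, ∫⁻ y in Ω, ENNReal.ofReal (gsq (u τ) y) := by
    have e1 : ∀ τ, ∫⁻ y in Ω, ENNReal.ofReal (gsq (fun x => ν⁻¹ • u (τ / ν) x) y)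
        = ENNReal.ofReal (ν⁻¹ ^ 2) * ∫⁻ y in Ω, ENNReal.ofReal (gsq (u (τ / ν)) y) := by
      intro τ
      rw [← lintegral_const_mul' _ _ ENNReal.ofReal_ne_top]
      refine lintegral_congr fun y => ?_
      rw [gsq_smul, ENNReal.ofReal_mul (by positivity)]
    simp only [e1]
    rw [lintegral_const_mul' _ _ ENNReal.ofReal_ne_top]
    have ea : ν * T - 32 * r ^ 2 = ν * (T - 32 * r ^ 2 / ν) := by field_simp
    rw [ea, lint_scale hν (fun τ => ∫⁻ y in Ω, ENNReal.ofReal (gsq (u τ) y)), ← mul_assoc,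
      ← ENNReal.ofReal_mul (by positivity)]
    congr 2
    field_simp
  rw [e, ← mul_assoc, ← ENNReal.ofReal_mul hC.le, ← div_eq_mul_inv] at key
  exact key

/-- Periodic solutions, all viscosities. -/
theorem peri_all (h1 : S_PERI1) (h2 : S_SCALE) : ∃ C : ℝ, 0 < C ∧
    ∀ (ν T : ℝ) (u : ℝ → V → V) (p : ℝ → V → ℝ), 0 < ν → 0 < T → IsSol ν T u p →
      ∀ r : ℝ, 0 < r → C * (1 + energy (u 0) / ν ^ 2) * r ≤ 1 → 32 * r ^ 2 / ν < T →
        ∀ S : Finset V, (∀ x ∈ S, x ∈ cube ∧ Sing T u x) →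
          (∀ x ∈ S, ∀ y ∈ S, x ≠ y → r ≤ ‖x - y‖) →
          S.card * r ≤ C / ν * ∫ t in Ioo (T - 32 * r ^ 2 / ν) T, enstrophy (u t) := by
  obtain ⟨C, hC, H⟩ := h1
  refine ⟨C, hC, ?_⟩
  intro ν T u p hν hT hu r hr hrC hrT S hS hsep
  have key := H (ν * T) _ _ (mul_pos hν hT) (h2 ν T u p hν hT hu) r hr (by
    have e0 : energy (fun x => ν⁻¹ • u (0 / ν) x) = energy (u 0) / ν ^ 2 := by
      rw [energy_smul, zero_div, inv_pow, div_eq_mul_inv, mul_comm]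
    rw [e0]
    exact hrC) (by rw [div_lt_iff₀ hν] at hrT; linarith) S
    (fun x hx => ⟨(hS x hx).1, sing_scale hν (hS x hx).2⟩) hsep
  have e : ∫ t in Ioo (ν * T - 32 * r ^ 2) (ν * T), enstrophy (fun x => ν⁻¹ • u (t / ν) x)
      = ν⁻¹ * ∫ t in Ioo (T - 32 * r ^ 2 / ν) T, enstrophy (u t) := by
    simp only [enstrophy_smul]
    rw [← integral_const_mul, ← integral_Ioc_eq_integral_Ioo, ← integral_Ioc_eq_integral_Ioo,
      ← intervalIntegral.integral_of_le (by nlinarith [sq_nonneg r]),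
      ← intervalIntegral.integral_of_le (by
        have : 0 ≤ 32 * r ^ 2 / ν := by positivity
        linarith)]
    have := intervalIntegral.integral_comp_div (a := ν * T - 32 * r ^ 2) (b := ν * T)
      (fun t => ν⁻¹ ^ 2 * enstrophy (u t)) hν.ne'
    rw [this]
    have ea : (ν * T - 32 * r ^ 2) / ν = T - 32 * r ^ 2 / ν := by field_simp
    have eb : ν * T / ν = T := by field_simp
    rw [ea, eb, smul_eq_mul, intervalIntegral.integral_const_mul,
      intervalIntegral.integral_const_mul]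
    field_simp
  rw [e, ← mul_assoc, ← div_eq_mul_inv] at key
  exact key

/-- The tail of an integrable function. -/
theorem tail_real {T c : ℝ} (hT : 0 < T) (hc : 0 ≤ c) {f : ℝ → ℝ} (hf : IntegrableOn f (Ioo 0 T))
    {ε : ℝ} (hε : 0 < ε) :
    ∃ r₀ : ℝ, 0 < r₀ ∧ ∀ r : ℝ, 0 < r → r < r₀ → c * r ^ 2 < T ∧
      ∫ t in Ioo (T - c * r ^ 2) T, f t ≤ ε := by
  have h1 : ContinuousOn (fun x => ∫ t in x..T, f t) (uIcc 0 T) :=
    intervalIntegral.continuousOn_primitive_interval_left (by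
      rw [uIcc_of_le hT.le, integrableOn_Icc_iff_integrableOn_Ioo]
      exact hf)
  have h2 : ContinuousWithinAt (fun x => ∫ t in x..T, f t) (Icc 0 T) T := by
    have := h1 T right_mem_uIcc
    rwa [uIcc_of_le hT.le] at this
  have h3 : Tendsto (fun r : ℝ => T - c * r ^ 2) (𝓝[>] 0) (𝓝[Icc 0 T] T) := by
    rw [tendsto_nhdsWithin_iff]
    have hlim : Tendsto (fun r : ℝ => T - c * r ^ 2) (𝓝[>] 0) (𝓝 T) := by
      have : Tendsto (fun r : ℝ => T - c * r ^ 2) (𝓝 0) (𝓝 (T - c * 0 ^ 2)) := by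
        apply Continuous.tendsto
        fun_prop
      simp only [ne_eq, OfNat.ofNat_ne_zero, not_false_eq_true, zero_pow, mul_zero, sub_zero] at this
      exact this.mono_left nhdsWithin_le_nhds
    refine ⟨hlim, ?_⟩
    filter_upwards [hlim.eventually (lt_mem_nhds hT)] with r hr
    exact ⟨hr.le, by have : 0 ≤ c * r ^ 2 := by positivity
                     linarith⟩
  have h4 : Tendsto (fun r : ℝ => ∫ t in (T - c * r ^ 2)..T, f t) (𝓝[>] 0) (𝓝 0) := by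
    have := h2.tendsto.comp h3
    rw [intervalIntegral.integral_same] at this
    exact this
  have h5 : ∀ᶠ r in 𝓝[>] (0 : ℝ), (∫ t in (T - c * r ^ 2)..T, f t) < ε :=
    h4.eventually (gt_mem_nhds hε)
  have h6 : ∀ᶠ r in 𝓝[>] (0 : ℝ), c * r ^ 2 < T := by
    have : Tendsto (fun r : ℝ => c * r ^ 2) (𝓝[>] 0) (𝓝 0) := by
      have : Tendsto (fun r : ℝ => c * r ^ 2) (𝓝 0) (𝓝 (c * 0 ^ 2)) := by
        apply Continuous.tendsto
        fun_prop
      simp only [ne_eq, OfNat.ofNat_ne_zero, not_false_eq_true, zero_pow, mul_zero] at this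
      exact this.mono_left nhdsWithin_le_nhds
    exact this.eventually (gt_mem_nhds hT)
  obtain ⟨r₀, hr₀, H⟩ := mem_nhdsGT_iff_exists_Ioo_subset.1 (h5.and h6)
  refine ⟨r₀, hr₀, fun r hr hrr => ?_⟩
  obtain ⟨ha, hb⟩ := H ⟨hr, hrr⟩
  refine ⟨hb, ?_⟩
  rw [intervalIntegral.integral_of_le (by
    have : 0 ≤ c * r ^ 2 := by positivity
    linarith), integral_Ioc_eq_integral_Ioo] at ha
  exact ha.le

/-- The tail of a finite lower integral. -/
theorem tail_lint {T c : ℝ} (hT : 0 < T) (hc : 0 ≤ c) {f : ℝ → ℝ≥0∞}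
    (hf : ∫⁻ t in Ioo 0 T, f t ≠ ⊤) {ε : ℝ≥0∞} (hε : 0 < ε) :
    ∃ r₀ : ℝ, 0 < r₀ ∧ ∀ r : ℝ, 0 < r → r < r₀ → c * r ^ 2 < T ∧
      ∫⁻ t in Ioo (T - c * r ^ 2) T, f t ≤ ε := by
  obtain ⟨δ, hδ, H⟩ := exists_pos_setLIntegral_lt_of_measure_lt hf hε.ne'
  have h1 : Tendsto (fun r : ℝ => ENNReal.ofReal (c * r ^ 2)) (𝓝[>] 0) (𝓝 0) := by
    have : Tendsto (fun r : ℝ => ENNReal.ofReal (c * r ^ 2)) (𝓝 0)
        (𝓝 (ENNReal.ofReal (c * 0 ^ 2))) := by
      apply Continuous.tendsto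
      exact ENNReal.continuous_ofReal.comp (by fun_prop)
    simp only [ne_eq, OfNat.ofNat_ne_zero, not_false_eq_true, zero_pow, mul_zero,
      ENNReal.ofReal_zero] at this
    exact this.mono_left nhdsWithin_le_nhds
  have h5 : ∀ᶠ r in 𝓝[>] (0 : ℝ), ENNReal.ofReal (c * r ^ 2) < δ :=
    h1.eventually (gt_mem_nhds hδ)
  have h6 : ∀ᶠ r in 𝓝[>] (0 : ℝ), c * r ^ 2 < T := by
    have : Tendsto (fun r : ℝ => c * r ^ 2) (𝓝[>] 0) (𝓝 0) := by
      have : Tendsto (fun r : ℝ => c * r ^ 2) (𝓝 0) (𝓝 (c * 0 ^ 2)) := by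
        apply Continuous.tendsto
        fun_prop
      simp only [ne_eq, OfNat.ofNat_ne_zero, not_false_eq_true, zero_pow, mul_zero] at this
      exact this.mono_left nhdsWithin_le_nhds
    exact this.eventually (gt_mem_nhds hT)
  obtain ⟨r₀, hr₀, H'⟩ := mem_nhdsGT_iff_exists_Ioo_subset.1 (h5.and h6)
  refine ⟨r₀, hr₀, fun r hr hrr => ?_⟩
  obtain ⟨ha, hb⟩ := H' ⟨hr, hrr⟩
  refine ⟨hb, ?_⟩
  have hsub : Ioo (T - c * r ^ 2) T ⊆ Ioo 0 T := fun t ht => ⟨by linarith [ht.1], ht.2⟩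
  have h7 : (volume.restrict (Ioo 0 T)) (Ioo (T - c * r ^ 2) T) < δ := by
    rw [Measure.restrict_apply measurableSet_Ioo, inter_eq_self_of_subset_left hsub,
      Real.volume_Ioo]
    have : T - (T - c * r ^ 2) = c * r ^ 2 := by ring
    rw [this]
    exact ha
  have h8 := H _ h7
  rw [Measure.restrict_restrict measurableSet_Ioo, inter_eq_self_of_subset_left hsub] at h8
  exact h8.le

end W221.NS
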