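import Pool.Agent.W221.NS.Fin2

/-!
The final step: Minkowski content and enstrophy blow-up rates of type one.
-/

open MeasureTheory Set Metric Filter Topology
open scoped ContDiff ENNReal

namespace W221.NS

open H459R3.NS

/-- A finite set is separated. -/
theorem fin_sep (S : Finset V) : ∃ r₀ : ℝ, 0 < r₀ ∧ ∀ x ∈ S, ∀ y ∈ S, x ≠ y → r₀ ≤ ‖x - y‖ := by
  classical
  have key : ∀ P : Finset (V × V), (∀ p ∈ P, p.1 ≠ p.2) →
      ∃ r₀ : ℝ, 0 < r₀ ∧ ∀ p ∈ P, r₀ ≤ ‖p.1 - p.2‖ := by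
    intro P
    induction P using Finset.induction with
    | empty => exact fun _ => ⟨1, one_pos, by simp⟩
    | insert a P ha ih =>
      intro h
      obtain ⟨r, hr, hP⟩ := ih fun p hp => h p (Finset.mem_insert_of_mem hp)
      refine ⟨min r ‖a.1 - a.2‖, lt_min hr
        (norm_pos_iff.2 (sub_ne_zero.2 (h a (Finset.mem_insert_self _ _)))), ?_⟩
      intro p hp
      rcases Finset.mem_insert.1 hp with rfl | hp
      · exact min_le_right _ _
      · exact (min_le_left _ _).trans (hP p hp)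
  obtain ⟨r₀, hr₀, H⟩ := key S.offDiag fun p hp => (Finset.mem_offDiag.1 hp).2.2
  exact ⟨r₀, hr₀, fun x hx y hy hxy => H (x, y) (Finset.mem_offDiag.2 ⟨hx, hy, hxy⟩)⟩

/-- The integral of a function bounded by `M / √(T - t)`. -/
theorem int_rate {T h M : ℝ} (hh : 0 ≤ h) (hM : 0 ≤ M) :
    IntegrableOn (fun t => M / √(T - t)) (Ioo (T - h) T) ∧
      ∫ t in Ioo (T - h) T, M / √(T - t) = 2 * M * √h := by
  have h1 : IntervalIntegrable (fun s : ℝ => s ^ (-(1 / 2 : ℝ))) volume 0 h :=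
    intervalIntegral.intervalIntegrable_rpow' (by norm_num)
  have h2 : IntervalIntegrable (fun t : ℝ => (T - t) ^ (-(1 / 2 : ℝ))) volume (T - 0) (T - h) :=
    h1.comp_sub_left T
  rw [sub_zero] at h2
  have h3 : IntegrableOn (fun t : ℝ => (T - t) ^ (-(1 / 2 : ℝ))) (Ioo (T - h) T) := by
    have := h2.symm
    rw [intervalIntegrable_iff_integrableOn_Ioo_of_le (by linarith)] at this
    exact this
  have h4 : ∀ t ∈ Ioo (T - h) T, M / √(T - t) = M * (T - t) ^ (-(1 / 2 : ℝ)) := by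
    intro t ht
    rw [Real.rpow_neg (by linarith [ht.2]), ← Real.sqrt_eq_rpow, div_eq_mul_inv]
  have h6 : IntegrableOn (fun t : ℝ => M * (T - t) ^ (-(1 / 2 : ℝ))) (Ioo (T - h) T) :=
    h3.const_mul M
  refine ⟨h6.congr_fun (fun t ht => (h4 t ht).symm) measurableSet_Ioo, ?_⟩
  rw [setIntegral_congr_fun measurableSet_Ioo h4, integral_const_mul,
    ← integral_Ioc_eq_integral_Ioo, ← intervalIntegral.integral_of_le (by linarith)]
  have h5 : ∫ t in (T - h)..T, (T - t) ^ (-(1 / 2 : ℝ)) = ∫ s in (T - T)..(T - (T - h)),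
      s ^ (-(1 / 2 : ℝ)) := intervalIntegral.integral_comp_sub_left (fun s => s ^ (-(1 / 2 : ℝ))) T
  rw [h5, sub_self, sub_sub_cancel, integral_rpow (Or.inl (by norm_num)), Real.sqrt_eq_rpow]
  have : (-(1 / 2 : ℝ)) + 1 = 1 / 2 := by norm_num
  rw [this, Real.zero_rpow (by norm_num)]
  ring

theorem sqrt32 {ν r : ℝ} (hν : 0 < ν) (hr : 0 < r) : 2 * √(32 * r ^ 2 / ν) ≤ 12 * (r / √ν) := by
  have h1 : √(32 * r ^ 2 / ν) = √32 * r / √ν := by
    rw [Real.sqrt_div (by positivity), Real.sqrt_mul (by norm_num), Real.sqrt_sq hr.le]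
  have h2 : √32 ≤ 6 := by
    rw [Real.sqrt_le_left (by norm_num)]
    norm_num
  have h3 : 0 < r / √ν := div_pos hr (Real.sqrt_pos.2 hν)
  rw [h1]
  have : 2 * (√32 * r / √ν) = 2 * √32 * (r / √ν) := by ring
  rw [this]
  nlinarith

/-- The first blow-up time, periodic case. -/
theorem peri_final (h1 : S_PERI1) (h2 : S_SCALE) (h3 : S_ENST) (h4 : S_MINK) :
    ∃ C : ℝ, 0 < C ∧
    ∀ (ν T : ℝ) (u : ℝ → V → V) (p : ℝ → V → ℝ), 0 < ν → 0 < T → IsSol ν T u p →
      (∀ r : ℝ, 0 < r → C * (1 + energy (u 0) / ν ^ 2) * r ≤ 1 → 32 * r ^ 2 / ν < T →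
        ∀ S : Finset V, (∀ x ∈ S, x ∈ cube ∧ Sing T u x) →
          (∀ x ∈ S, ∀ y ∈ S, x ≠ y → r ≤ ‖x - y‖) →
          S.card * r ≤ C / ν * ∫ t in Ioo (T - 32 * r ^ 2 / ν) T, enstrophy (u t)) ∧
      Tendsto (fun r : ℝ => volume (thickening r {x ∈ cube | Sing T u x})
        / ENNReal.ofReal (r ^ 2)) (𝓝[>] 0) (𝓝 0) ∧
      ∀ M δ : ℝ, 0 ≤ M → 0 < δ → (∀ t ∈ Ioo (T - δ) T, enstrophy (u t) ≤ M / √(T - t)) →
        ∀ S : Finset V, (∀ x ∈ S, x ∈ cube ∧ Sing T u x) → (S.card : ℝ) ≤ C * M / (ν * √ν) := by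
  obtain ⟨C, hC, H⟩ := peri_all h1 h2
  refine ⟨12 * C, by positivity, ?_⟩
  intro ν T u p hν hT hu
  have hint : IntegrableOn (fun t => enstrophy (u t)) (Ioo 0 T) := h3 ν T u p hν hT hu
  have hE : 0 ≤ energy (u 0) :=
    Finset.sum_nonneg fun i _ => integral_nonneg fun x => sq_nonneg _
  have hE' : 0 ≤ energy (u 0) / ν ^ 2 := by positivity
  refine ⟨?_, ?_, ?_⟩
  · intro r hr hrC hrT S hS hsep
    have h5 := H ν T u p hν hT hu r hr (le_trans (by
      have : 0 ≤ C * (1 + energy (u 0) / ν ^ 2) * r := by positivity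
      nlinarith) hrC) hrT S hS hsep
    refine h5.trans ?_
    have h6 : 0 ≤ ∫ t in Ioo (T - 32 * r ^ 2 / ν) T, enstrophy (u t) :=
      integral_nonneg fun t => enstrophy_nonneg _
    have h7 : 0 ≤ C / ν := by positivity
    have h8 : 12 * C / ν = 12 * (C / ν) := by ring
    rw [h8]
    nlinarith [mul_nonneg h7 h6]
  · apply h4
    intro ε hε
    obtain ⟨r₀, hr₀, H0⟩ := tail_real (c := 32 / ν) hT (by positivity) hint
      (ε := ε / (C / ν)) (by positivity)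
    refine ⟨min r₀ (1 / (C * (1 + energy (u 0) / ν ^ 2))), lt_min hr₀ (by positivity), ?_⟩
    intro r hr hrr S hS hsep
    obtain ⟨ha, hb⟩ := H0 r hr (hrr.trans_le (min_le_left _ _))
    have e : 32 / ν * r ^ 2 = 32 * r ^ 2 / ν := by ring
    rw [e] at ha hb
    have h5 := H ν T u p hν hT hu r hr (by
      have := (hrr.trans_le (min_le_right _ _)).le
      rw [le_div_iff₀ (by positivity)] at this
      linarith) ha S hS hsep
    refine h5.trans ?_
    rw [le_div_iff₀ (by positivity)] at hb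
    linarith
  · intro M δ hM hδ hrate S hS
    obtain ⟨r₁, hr₁, hsep⟩ := fin_sep S
    obtain ⟨r₀, hr₀, H0⟩ := tail_real (c := 32 / ν) hT (by positivity) hint
      (ε := 1) one_pos
    obtain ⟨r₂, hr₂, H2⟩ := tail_real (c := 32 / ν) hδ (by positivity)
      (f := fun _ => (0 : ℝ)) integrableOn_zero (ε := 1) one_pos
    obtain ⟨r, hr, hrr⟩ : ∃ r : ℝ, 0 < r ∧
        r < min (min r₁ (min r₀ r₂)) (1 / (C * (1 + energy (u 0) / ν ^ 2))) :=
      exists_between (lt_min (lt_min hr₁ (lt_min hr₀ hr₂)) (by positivity))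
    have hrA := (hrr.trans_le (min_le_left _ _)).trans_le (min_le_left _ _)
    have hrB := (hrr.trans_le (min_le_left _ _)).trans_le (min_le_right _ _)
    obtain ⟨ha, -⟩ := H0 r hr (hrB.trans_le (min_le_left _ _))
    obtain ⟨hb, -⟩ := H2 r hr (hrB.trans_le (min_le_right _ _))
    have e : 32 / ν * r ^ 2 = 32 * r ^ 2 / ν := by ring
    rw [e] at ha hb
    have h5 := H ν T u p hν hT hu r hr (by
      have := (hrr.trans_le (min_le_right _ _)).le
      rw [le_div_iff₀ (by positivity)] at this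
      linarith) ha S hS (fun x hx y hy hxy => hrA.le.trans (hsep x hx y hy hxy))
    have hh : 0 ≤ 32 * r ^ 2 / ν := by positivity
    obtain ⟨hi, he⟩ := int_rate (T := T) hh hM
    have h6 : ∫ t in Ioo (T - 32 * r ^ 2 / ν) T, enstrophy (u t)
        ≤ ∫ t in Ioo (T - 32 * r ^ 2 / ν) T, M / √(T - t) := by
      refine setIntegral_mono_on (hint.mono_set fun t ht => ⟨by linarith [ht.1], ht.2⟩) hi
        measurableSet_Ioo fun t ht => hrate t ⟨by linarith [ht.1], ht.2⟩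
    rw [he] at h6
    have h7 : S.card * r ≤ C / ν * (M * (12 * (r / √ν))) := by
      refine h5.trans (mul_le_mul_of_nonneg_left (h6.trans ?_) (by positivity))
      have := sqrt32 hν hr
      nlinarith
    have hs : 0 < √ν := Real.sqrt_pos.2 hν
    have h8 : C / ν * (M * (12 * (r / √ν))) = 12 * C * M / (ν * √ν) * r := by
      field_simp
    rw [h8] at h7
    exact le_of_mul_le_mul_right h7 hr

/-- The first blow-up time, whole space. -/
theorem whole_final (h1 : S_WHOLE1) (h2 : S_OSC) (h4 : S_MINK) :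
    ∃ C : ℝ, 0 < C ∧
    ∀ (ν T E : ℝ) (u : ℝ → V → V) (p : ℝ → V → ℝ), 0 < ν → 0 < T → OSol ν T E univ u p →
      (∀ r : ℝ, 0 < r → 32 * r ^ 2 / ν < T → ∀ S : Finset V,
        (∀ x ∈ S, Sing T u x) → (∀ x ∈ S, ∀ y ∈ S, x ≠ y → r ≤ ‖x - y‖) →
          ENNReal.ofReal (S.card * r) ≤ ENNReal.ofReal (C / ν) *
            ∫⁻ t in Ioo (T - 32 * r ^ 2 / ν) T, ∫⁻ y, ENNReal.ofReal (gsq (u t) y)) ∧
      (∫⁻ t in Ioo 0 T, ∫⁻ y, ENNReal.ofReal (gsq (u t) y) ≠ ⊤ →
        Tendsto (fun r : ℝ => volume (thickening r {x | Sing T u x})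
          / ENNReal.ofReal (r ^ 2)) (𝓝[>] 0) (𝓝 0)) ∧
      ∀ M δ : ℝ, 0 ≤ M → 0 < δ → (∀ t ∈ Ioo (T - δ) T,
          ∫⁻ y, ENNReal.ofReal (gsq (u t) y) ≤ ENNReal.ofReal (M / √(T - t))) →
        ∀ S : Finset V, (∀ x ∈ S, Sing T u x) → (S.card : ℝ) ≤ C * M / (ν * √ν) := by
  obtain ⟨C, hC, H⟩ := whole_all h1 h2
  refine ⟨12 * C, by positivity, ?_⟩
  intro ν T E u p hν hT hu'
  have hu : OSol ν T |E| univ u p :=
    { hu' with en := fun t ht => by rw [sq_abs]; exact hu'.en t ht }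
  have hE : 0 ≤ |E| := abs_nonneg E
  refine ⟨?_, ?_, ?_⟩
  · intro r hr hrT S hS hsep
    have h5 := H ν T |E| u p hν hT hE hu r hr hrT S hS hsep
    refine h5.trans (mul_le_mul_left (ENNReal.ofReal_le_ofReal ?_) _)
    gcongr
    linarith
  · intro hfin
    apply h4
    intro ε hε
    obtain ⟨r₀, hr₀, H0⟩ := tail_lint (c := 32 / ν) hT (by positivity) hfin
      (ε := ENNReal.ofReal (ε / (C / ν))) (ENNReal.ofReal_pos.2 (by positivity))
    refine ⟨r₀, hr₀, ?_⟩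
    intro r hr hrr S hS hsep
    obtain ⟨ha, hb⟩ := H0 r hr hrr
    have e : 32 / ν * r ^ 2 = 32 * r ^ 2 / ν := by ring
    rw [e] at ha hb
    have h5 := H ν T |E| u p hν hT hE hu r hr ha S hS hsep
    have h6 := h5.trans (mul_le_mul_right hb _)
    rw [← ENNReal.ofReal_mul (by positivity)] at h6
    have h7 : C / ν * (ε / (C / ν)) = ε := by field_simp
    rw [h7] at h6
    exact (ENNReal.ofReal_le_ofReal_iff hε.le).1 h6
  · intro M δ hM hδ hrate S hS
    obtain ⟨r₁, hr₁, hsep⟩ := fin_sep S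
    obtain ⟨r₀, hr₀, H0⟩ := tail_real (c := 32 / ν) hT (by positivity)
      (f := fun _ => (0 : ℝ)) integrableOn_zero (ε := 1) one_pos
    obtain ⟨r₂, hr₂, H2⟩ := tail_real (c := 32 / ν) hδ (by positivity)
      (f := fun _ => (0 : ℝ)) integrableOn_zero (ε := 1) one_pos
    obtain ⟨r, hr, hrr⟩ : ∃ r : ℝ, 0 < r ∧ r < min r₁ (min r₀ r₂) :=
      exists_between (lt_min hr₁ (lt_min hr₀ hr₂))
    have hrA := hrr.trans_le (min_le_left _ _)
    have hrB := hrr.trans_le (min_le_right _ _)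
    obtain ⟨ha, -⟩ := H0 r hr (hrB.trans_le (min_le_left _ _))
    obtain ⟨hb, -⟩ := H2 r hr (hrB.trans_le (min_le_right _ _))
    have e : 32 / ν * r ^ 2 = 32 * r ^ 2 / ν := by ring
    rw [e] at ha hb
    have h5 := H ν T |E| u p hν hT hE hu r hr ha S hS
      (fun x hx y hy hxy => hrA.le.trans (hsep x hx y hy hxy))
    have hh : 0 ≤ 32 * r ^ 2 / ν := by positivity
    obtain ⟨hi, he⟩ := int_rate (T := T) hh hM
    have h6 : ∫⁻ t in Ioo (T - 32 * r ^ 2 / ν) T, ∫⁻ y, ENNReal.ofReal (gsq (u t) y)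
        ≤ ENNReal.ofReal (2 * M * √(32 * r ^ 2 / ν)) := by
      rw [← he, ofReal_integral_eq_lintegral_ofReal hi (Eventually.of_forall fun t => by positivity)]
      exact setLIntegral_mono' measurableSet_Ioo fun t ht => hrate t ⟨by linarith [ht.1], ht.2⟩
    have h7 := h5.trans (mul_le_mul_right h6 _)
    rw [← ENNReal.ofReal_mul (by positivity),
      ENNReal.ofReal_le_ofReal_iff (by positivity)] at h7
    have h7' : S.card * r ≤ C / ν * (M * (12 * (r / √ν))) := by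
      refine h7.trans (mul_le_mul_of_nonneg_left ?_ (by positivity))
      have := sqrt32 hν hr
      nlinarith
    have hs : 0 < √ν := Real.sqrt_pos.2 hν
    have h8 : C / ν * (M * (12 * (r / √ν))) = 12 * C * M / (ν * √ν) * r := by
      field_simp
    rw [h8] at h7'
    exact le_of_mul_le_mul_right h7' hr

/-- The first blow-up time, domains. -/
theorem omega_final (h1 : S_OMEGA1) (h2 : S_OSC) (h4 : S_MINK) :
    ∃ C : ℝ, 0 < C ∧
    ∀ (ν T E : ℝ) (Ω : Set V) (u : ℝ → V → V) (p : ℝ → V → ℝ), 0 < ν → 0 < T →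
      OSol ν T E Ω u p → ∀ K : Set V, IsCompact K → K ⊆ Ω →
      (∃ r₀ : ℝ, 0 < r₀ ∧ ∀ r : ℝ, 0 < r → r < r₀ → ∀ S : Finset V,
        (∀ x ∈ S, x ∈ K ∧ Sing T u x) → (∀ x ∈ S, ∀ y ∈ S, x ≠ y → r ≤ ‖x - y‖) →
          ENNReal.ofReal (S.card * r) ≤ ENNReal.ofReal (C / ν) *
            ∫⁻ t in Ioo (T - 32 * r ^ 2 / ν) T, ∫⁻ y in Ω, ENNReal.ofReal (gsq (u t) y)) ∧
      (∫⁻ t in Ioo 0 T, ∫⁻ y in Ω, ENNReal.ofReal (gsq (u t) y) ≠ ⊤ →
        Tendsto (fun r : ℝ => volume (thickening r {x ∈ K | Sing T u x})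
          / ENNReal.ofReal (r ^ 2)) (𝓝[>] 0) (𝓝 0)) ∧
      ∀ M δ : ℝ, 0 ≤ M → 0 < δ → (∀ t ∈ Ioo (T - δ) T,
          ∫⁻ y in Ω, ENNReal.ofReal (gsq (u t) y) ≤ ENNReal.ofReal (M / √(T - t))) →
        ∀ S : Finset V, (∀ x ∈ S, x ∈ Ω ∧ Sing T u x) → (S.card : ℝ) ≤ C * M / (ν * √ν) := by
  obtain ⟨C, hC, H⟩ := omega_all h1 h2
  refine ⟨12 * C, by positivity, ?_⟩
  intro ν T E Ω u p hν hT hu' K hK hKΩ
  have hu : OSol ν T |E| Ω u p :=
    { hu' with en := fun t ht => by rw [sq_abs]; exact hu'.en t ht }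
  have hE : 0 ≤ |E| := abs_nonneg E
  obtain ⟨ρ, hρ, HK⟩ := H ν T |E| Ω u p hν hT hE hu K hK hKΩ
  refine ⟨⟨ρ, hρ, ?_⟩, ?_, ?_⟩
  · intro r hr hrr S hS hsep
    have h5 := HK r hr hrr S hS hsep
    refine h5.trans (mul_le_mul_left (ENNReal.ofReal_le_ofReal ?_) _)
    gcongr
    linarith
  · intro hfin
    apply h4
    intro ε hε
    obtain ⟨r₀, hr₀, H0⟩ := tail_lint (c := 32 / ν) hT (by positivity) hfin
      (ε := ENNReal.ofReal (ε / (C / ν))) (ENNReal.ofReal_pos.2 (by positivity))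
    refine ⟨min r₀ ρ, lt_min hr₀ hρ, ?_⟩
    intro r hr hrr S hS hsep
    obtain ⟨ha, hb⟩ := H0 r hr (hrr.trans_le (min_le_left _ _))
    have e : 32 / ν * r ^ 2 = 32 * r ^ 2 / ν := by ring
    rw [e] at ha hb
    have h5 := HK r hr (hrr.trans_le (min_le_right _ _)) S hS hsep
    have h6 := h5.trans (mul_le_mul_right hb _)
    rw [← ENNReal.ofReal_mul (by positivity)] at h6
    have h7 : C / ν * (ε / (C / ν)) = ε := by field_simp
    rw [h7] at h6
    exact (ENNReal.ofReal_le_ofReal_iff hε.le).1 h6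
  · intro M δ hM hδ hrate S hS
    have hSc : IsCompact (S : Set V) := S.finite_toSet.isCompact
    obtain ⟨ρ', hρ', HS⟩ := H ν T |E| Ω u p hν hT hE hu S hSc fun x hx => (hS x hx).1
    obtain ⟨r₁, hr₁, hsep⟩ := fin_sep S
    obtain ⟨r₂, hr₂, H2⟩ := tail_real (c := 32 / ν) hδ (by positivity)
      (f := fun _ => (0 : ℝ)) integrableOn_zero (ε := 1) one_pos
    obtain ⟨r, hr, hrr⟩ : ∃ r : ℝ, 0 < r ∧ r < min r₁ (min ρ' r₂) :=
      exists_between (lt_min hr₁ (lt_min hρ' hr₂))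
    have hrA := hrr.trans_le (min_le_left _ _)
    have hrB := hrr.trans_le (min_le_right _ _)
    obtain ⟨hb, -⟩ := H2 r hr (hrB.trans_le (min_le_right _ _))
    have e : 32 / ν * r ^ 2 = 32 * r ^ 2 / ν := by ring
    rw [e] at hb
    have h5 := HS r hr (hrB.trans_le (min_le_left _ _)) S (fun x hx => ⟨hx, (hS x hx).2⟩)
      (fun x hx y hy hxy => hrA.le.trans (hsep x hx y hy hxy))
    have hh : 0 ≤ 32 * r ^ 2 / ν := by positivity
    obtain ⟨hi, he⟩ := int_rate (T := T) hh hM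
    have h6 : ∫⁻ t in Ioo (T - 32 * r ^ 2 / ν) T, ∫⁻ y in Ω, ENNReal.ofReal (gsq (u t) y)
        ≤ ENNReal.ofReal (2 * M * √(32 * r ^ 2 / ν)) := by
      rw [← he, ofReal_integral_eq_lintegral_ofReal hi (Eventually.of_forall fun t => by positivity)]
      exact setLIntegral_mono' measurableSet_Ioo fun t ht => hrate t ⟨by linarith [ht.1], ht.2⟩
    have h7 := h5.trans (mul_le_mul_right h6 _)
    rw [← ENNReal.ofReal_mul (by positivity),
      ENNReal.ofReal_le_ofReal_iff (by positivity)] at h7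
    have h7' : S.card * r ≤ C / ν * (M * (12 * (r / √ν))) := by
      refine h7.trans (mul_le_mul_of_nonneg_left ?_ (by positivity))
      have := sqrt32 hν hr
      nlinarith
    have hs : 0 < √ν := Real.sqrt_pos.2 hν
    have h8 : C / ν * (M * (12 * (r / √ν))) = 12 * C * M / (ν * √ν) * r := by
      field_simp
    rw [h8] at h7'
    exact le_of_mul_le_mul_right h7' hr

end W221.NS
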